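import Pool.Agent.V8H46.Sym.Rel

/-!
# A group of permutations of small index contains a three-cycle (Bochert)
-/

set_option autoImplicit false

namespace Pool.Agent.V8H46.Sym

open Equiv Equiv.Perm Finset

lemma pinv1 {X : Type} (f : Perm X) (x : X) : f (f⁻¹ x) = x := f.apply_symm_apply x

lemma pinv2 {X : Type} (f : Perm X) (x : X) : f⁻¹ (f x) = x := f.symm_apply_apply x

lemma comm_cycle {X : Type} [DecidableEq X] (D : Finset X) (x y : Perm X) (g : X)
    (hx : ∀ u, u ∉ D → x u = u) (hxg : x g ≠ g) (hy : ∀ u ∈ D, u ≠ g → y u = u) (hyg : y g ≠ g) :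
    x * y * x⁻¹ * y⁻¹ = cyc g (x g) (y g) ∧ g ≠ x g ∧ g ≠ y g ∧ x g ≠ y g := by
  have hgD : g ∈ D := by
    by_contra h
    exact hxg (hx g h)
  have hxD : ∀ u ∈ D, x u ∈ D := by
    intro u hu
    by_contra h
    have := hx (x u) h
    exact h (by rw [x.injective this]; exact hu)
  have hxD' : ∀ u ∈ D, x⁻¹ u ∈ D := by
    intro u hu
    by_contra h
    have := hx (x⁻¹ u) h
    rw [pinv1] at this
    exact h (by rw [← this]; exact hu)
  have hx' : ∀ u, u ∉ D → x⁻¹ u = u := by
    intro u hu
    rw [Perm.inv_eq_iff_eq]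
    exact (hx u hu).symm
  have hy' : ∀ u ∈ D, u ≠ g → y⁻¹ u = u := by
    intro u hu hug
    rw [Perm.inv_eq_iff_eq]
    exact (hy u hu hug).symm
  have hygD : y g ∉ D := by
    intro h
    have := hy (y g) h hyg
    exact hyg (y.injective this)
  have h1 : g ≠ x g := hxg.symm
  have h2 : g ≠ y g := hyg.symm
  have h3 : x g ≠ y g := fun h => hygD (h ▸ hxD g hgD)
  refine ⟨?_, h1, h2, h3⟩
  have hyinv : ∀ u, u ∉ D → u ≠ y g → y⁻¹ u ∉ D := by
    intro u hu hug h
    by_cases h4 : y⁻¹ u = g
    · rw [Perm.inv_eq_iff_eq] at h4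
      exact hug h4
    · have := hy _ h h4
      rw [pinv1] at this
      exact hu (this ▸ h)
  have hyinvg : y⁻¹ g ∉ D := by
    intro h
    by_cases h4 : y⁻¹ g = g
    · rw [Perm.inv_eq_iff_eq] at h4
      exact h2 h4
    · have := hy _ h h4
      rw [pinv1] at this
      exact h4 this.symm
  ext u
  simp only [Perm.mul_apply]
  by_cases ug : u = g
  · rw [ug, cyc_fst h1 h2, hx' _ hyinvg, pinv1]
  by_cases uxg : u = x g
  · rw [uxg, cyc_snd h3 h2, hy' _ (hxD g hgD) hxg, pinv2, hx _ hygD]
  by_cases uyg : u = y g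
  · rw [uyg, cyc_thd, pinv2, hy _ (hxD' g hgD), pinv1]
    intro h
    rw [Perm.inv_eq_iff_eq] at h
    exact h1 h
  rw [cyc_of_ne ug uxg uyg]
  by_cases uD : u ∈ D
  · rw [hy' u uD ug, hy _ (hxD' u uD), pinv1]
    intro h
    rw [Perm.inv_eq_iff_eq] at h
    exact uxg h
  · rw [hx' _ (hyinv u uD uyg), pinv1, hx u uD]

theorem bochert {X : Type} [Fintype X] [DecidableEq X] (K : Subgroup (Perm X))
    (h3 : ∀ a b c : X, ¬ T K a b c) :
    ((Fintype.card X + 1) / 2).factorial ≤ K.index := by
  classical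
  obtain ⟨D, hD, hmin⟩ := Finset.exists_min_image
    ((Finset.univ : Finset (Finset X)).filter (fun D => ∀ k ∈ K, (∀ x ∈ D, k x = x) → k = 1))
    Finset.card ⟨Finset.univ, by
      rw [Finset.mem_filter]
      refine ⟨Finset.mem_univ _, fun k _ h => ?_⟩
      ext x
      exact h x (Finset.mem_univ x)⟩
  rw [Finset.mem_filter] at hD
  have hP := hD.2
  have hnP : ∀ E : Finset X, E.card < D.card → ∃ k ∈ K, (∀ x ∈ E, k x = x) ∧ k ≠ 1 := by
    intro E hE
    by_contra hcon
    push Not at hcon
    have := hmin E (Finset.mem_filter.2 ⟨Finset.mem_univ _, hcon⟩)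
    omega
  have hDX : D.card ≤ Fintype.card X := Finset.card_le_univ D
  have hKi : Nat.card K * K.index = (Fintype.card X).factorial := by
    rw [Subgroup.card_mul_index, Nat.card_eq_fintype_card, Fintype.card_perm]
  by_cases hc : 2 * D.card ≤ Fintype.card X
  · have hinj : Nat.card K ≤ (Fintype.card X).descFactorial D.card := by
      rw [Nat.card_eq_fintype_card]
      have : Fintype.card (D ↪ X) = (Fintype.card X).descFactorial D.card := by
        rw [Fintype.card_embedding_eq, Fintype.card_coe]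
      rw [← this]
      refine Fintype.card_le_of_injective
        (fun k : K => (⟨fun x => (k : Perm X) x, fun x y h =>
          Subtype.ext ((k : Perm X).injective h)⟩ : D ↪ X)) ?_
      intro k k' h
      have h' : ∀ x ∈ D, (k : Perm X) x = (k' : Perm X) x := by
        intro x hx
        have := congrArg (fun f : D ↪ X => f ⟨x, hx⟩) h
        exact this
      have h4 := hP ((k' : Perm X)⁻¹ * k) (K.mul_mem (K.inv_mem k'.2) k.2) (by
        intro x hx
        rw [Perm.mul_apply, h' x hx, pinv2])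
      exact Subtype.ext (inv_mul_eq_one.1 h4).symm
    have h5 := Nat.factorial_mul_descFactorial hDX
    have h6 : 0 < (Fintype.card X).descFactorial D.card := by
      rw [Nat.pos_iff_ne_zero]
      intro h
      rw [h, mul_zero] at h5
      exact (Nat.factorial_ne_zero _) h5.symm
    have h7 : (Fintype.card X - D.card).factorial ≤ K.index := by
      have : (Fintype.card X).descFactorial D.card * (Fintype.card X - D.card).factorial ≤
          (Fintype.card X).descFactorial D.card * K.index := by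
        rw [mul_comm, h5, ← hKi]
        exact Nat.mul_le_mul_right _ hinj
      exact Nat.le_of_mul_le_mul_left this h6
    exact (Nat.factorial_le (by omega)).trans h7
  · exfalso
    obtain ⟨x, hxK, hx, hx1⟩ := hnP Dᶜ (by rw [Finset.card_compl]; omega)
    obtain ⟨g, hg⟩ : ∃ g, x g ≠ g := by
      by_contra hcon
      push Not at hcon
      exact hx1 (by ext u; exact hcon u)
    have hgD : g ∈ D := by
      by_contra h
      exact hg (hx g (Finset.mem_compl.2 h))
    obtain ⟨y, hyK, hy, hy1⟩ := hnP (D.erase g) (Finset.card_erase_lt_of_mem hgD)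
    have hyg : y g ≠ g := by
      intro h
      refine hy1 (hP y hyK ?_)
      intro u hu
      by_cases hug : u = g
      · rw [hug, h]
      · exact hy u (Finset.mem_erase.2 ⟨hug, hu⟩)
    obtain ⟨e, e1, e2, e3⟩ := comm_cycle D x y g (fun u hu => hx u (Finset.mem_compl.2 hu)) hg
      (fun u hu hug => hy u (Finset.mem_erase.2 ⟨hug, hu⟩)) hyg
    refine h3 g (x g) (y g) ⟨e1, e2, e3, ?_⟩
    rw [← e]
    exact K.mul_mem (K.mul_mem (K.mul_mem hxK hyK) (K.inv_mem hxK)) (K.inv_mem hyK)

end Pool.Agent.V8H46.Sym
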