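import Mathlib

/-!
# Formulas with MOD gates closed under permutations, and derivations from them

`A ⊕ B` is the set of the pigeons, `J` the set of the holes, a variable is a pair of a pigeon and a
hole. The group of all permutations of `A` acts on the pigeons (trivially on `B`).
-/

set_option autoImplicit false

namespace Pool.Agent.V8H46.Sym

open Equiv

/-- the outermost symbol of a formula together with the immediate subformulas: a variable, a
negation, a disjunction of a set of formulas, or a MOD_p gate, which is true iff the sum of the
weights `w h` of the true formulas `h` is equal to `c` in `ZMod p` -/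
inductive Gate (p : ℕ) (X G : Type) : Type
  | var (x : X) : Gate p X G
  | neg (h : G) : Gate p X G
  | or (s : Finset G) : Gate p X G
  | mod (w : G → ZMod p) (c : ZMod p) : Gate p X G

/-- renaming of the pigeons of `A` -/
def Gate.rename {p : ℕ} {A B J G : Type} [DecidableEq G] [MulAction (Perm A) G] (π : Perm A) :
    Gate p ((A ⊕ B) × J) G → Gate p ((A ⊕ B) × J) G
  | Gate.var x => Gate.var (Sum.map π id x.1, x.2)
  | Gate.neg h => Gate.neg (π • h)
  | Gate.or s => Gate.or (s.image (fun h => π • h))
  | Gate.mod w c => Gate.mod (fun h => w (π⁻¹ • h)) c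

/-- `G` is a set of formulas which is closed under subformulas and under the renaming of the pigeons
of `A` by permutations. Formulas are identified if they have the same outermost symbol and the
same immediate subformulas (so the arguments of disjunctions and MOD gates are not ordered). -/
structure Formulas (p : ℕ) (A B J G : Type) [DecidableEq G] [MulAction (Perm A) G] where
  gate : G → Gate p ((A ⊕ B) × J) G
  rank : G → ℕ
  inj : Function.Injective gate
  rank_neg : ∀ g h, gate g = Gate.neg h → rank h < rank g
  rank_or : ∀ g s, gate g = Gate.or s → ∀ h ∈ s, rank h < rank g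
  rank_mod : ∀ g w c, gate g = Gate.mod w c → ∀ h, w h ≠ 0 → rank h < rank g
  equivariant : ∀ (π : Perm A) (g : G), gate (π • g) = (gate g).rename π

/-- the clauses of the pigeonhole principle for bijections: every pigeon has a hole, no two pigeons
have the same hole, no pigeon has two holes, every hole has a pigeon -/
inductive BijectivePHP (A B J : Type) : Set (((A ⊕ B) × J) × Bool) → Prop
  | total (x : A ⊕ B) : BijectivePHP A B J {l | ∃ j, l = ((x, j), true)}
  | injective (x y : A ⊕ B) (j : J) : x ≠ y → BijectivePHP A B J {((x, j), false), ((y, j), false)}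
  | function (x : A ⊕ B) (j k : J) : j ≠ k → BijectivePHP A B J {((x, j), false), ((x, k), false)}
  | onto (j : J) : BijectivePHP A B J {l | ∃ x, l = ((x, j), true)}

section

variable {p : ℕ} {A B J G : Type} [DecidableEq G] [MulAction (Perm A) G] [Fintype G]

/-- the formula `h` is the literal `l` -/
def Formulas.IsLit (F : Formulas p A B J G) (h : G) (l : ((A ⊕ B) × J) × Bool) : Prop :=
  (l.2 = true ∧ F.gate h = Gate.var l.1) ∨
    (l.2 = false ∧ ∃ v, F.gate h = Gate.neg v ∧ F.gate v = Gate.var l.1)

open Classical in
/-- the valuation `V` respects the outermost connective of the formula `g` -/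
def Formulas.Respects (F : Formulas p A B J G) (V : G → Prop) (g : G) : Prop :=
  match F.gate g with
  | Gate.var _ => True
  | Gate.neg h => V g ↔ ¬ V h
  | Gate.or s => V g ↔ ∃ h ∈ s, V h
  | Gate.mod w c => V g ↔ (∑ h, (if V h then w h else 0)) = c

/-- The formulas of `G` that can be derived (in `G`) from the clauses of the pigeonhole principle.
The rules are: clauses, possibly with side formulas; all `k`-local inferences; the introduction of
a negated disjunction of any fan-in; the addition of any number of MOD formulas. -/
inductive Formulas.Derivable (F : Formulas p A B J G) (k : ℕ) : G → Prop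
  /-- a disjunction which contains all literals of a clause -/
  | clause (C : Set (((A ⊕ B) × J) × Bool)) (L : G) (s : Finset G) : BijectivePHP A B J C →
      F.gate L = Gate.or s → (∀ l ∈ C, ∃ h ∈ s, F.IsLit h l) → F.Derivable k L
  /-- an inference with premises `Q`, sound for every valuation that respects the outermost
  connectives of the at most `k` formulas in `S` -/
  | loc (S Q : Finset G) (L : G) : S.card ≤ k → L ∈ S → Q ⊆ S → (∀ g ∈ Q, F.Derivable k g) →
      (∀ V : G → Prop, (∀ g ∈ S, F.Respects V g) → (∀ g ∈ Q, V g) → V L) → F.Derivable k L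
  /-- from `D ∨ ¬ h` for all `h` in `S` infer `D ∨ ¬ ⋁ S` -/
  | orLeft (L n g : G) (D S : Finset G) (P N : G → G) : n ∉ D → F.gate L = Gate.or (insert n D) →
      F.gate n = Gate.neg g → F.gate g = Gate.or S → (∀ h ∈ S, F.gate (N h) = Gate.neg h) →
      (∀ h ∈ S, F.gate (P h) = Gate.or (insert (N h) D)) → (∀ h ∈ S, F.Derivable k (P h)) →
      F.Derivable k L
  /-- from `D ∨ MOD (w_m, c_m)` for all `m` in `K` infer `D ∨ MOD (∑ w_m, ∑ c_m)`; `K` has to be
  closed under the permutations which fix the conclusion -/
  | modSum (L m : G) (D K : Finset G) (P : G → G) (w : G → G → ZMod p) (c : G → ZMod p) :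
      m ∉ D → F.gate L = Gate.or (insert m D) →
      F.gate m = Gate.mod (fun h => ∑ t ∈ K, w t h) (∑ t ∈ K, c t) →
      (∀ t ∈ K, F.gate t = Gate.mod (w t) (c t)) →
      (∀ t ∈ K, F.gate (P t) = Gate.or (insert t D)) → (∀ t ∈ K, F.Derivable k (P t)) →
      (∀ π : Perm A, π • L = L → π • m = m → ∀ t ∈ K, π • t ∈ K) →
      F.Derivable k L

end

end Pool.Agent.V8H46.Sym
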