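import Pool.Agent.V8H46.Sym.Support
import Pool.Agent.V8H46.Sym.Defs

/-!
# Inferences with boundedly many premises: arbitrary lines
-/

set_option autoImplicit false

namespace Pool.Agent.V8H46.Sym

open Equiv Equiv.Perm Finset

variable {A B J : Type}

/-- the assignment `β` satisfies the clause `C` -/
def Sat (C : Set (((A ⊕ B) × J) × Bool)) (β : (A ⊕ B) × J → Bool) : Prop := ∃ l ∈ C, β l.1 = l.2

/-- Semantic refutations of the pigeonhole principle for bijections with at most `k` premises per
inference: the lines `f 0, …, f T` are arbitrary properties of assignments, each follows from one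
clause or from at most `k` earlier lines, and the last line is never true. -/
def SemanticRefutation (k T : ℕ) (f : ℕ → ((A ⊕ B) × J → Bool) → Prop) : Prop :=
  (∀ i ≤ T, (∃ C, BijectivePHP A B J C ∧ ∀ β, Sat C β → f i β) ∨
    ∃ Q : Finset ℕ, Q.card ≤ k ∧ (∀ j ∈ Q, j < i) ∧ ∀ β, (∀ j ∈ Q, f j β) → f i β) ∧
  ∀ β, ¬ f T β

/-- the images of a line under the renamings of the pigeons of `A` -/
def Images (f : ((A ⊕ B) × J → Bool) → Prop) : Set (((A ⊕ B) × J → Bool) → Prop) :=
  Set.range (fun (π : Perm A) (β : (A ⊕ B) × J → Bool) => f (fun x => β (Sum.map π id x.1, x.2)))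

/-- critical assignments: all pigeons except for `a` are mapped bijectively onto the holes -/
structure Crit (a : A) (β : (A ⊕ B) × J → Bool) : Prop where
  onto : ∀ j, ∃ x, β (x, j) = true
  inj : ∀ j x y, β (x, j) = true → β (y, j) = true → x = y
  total : ∀ x, x ≠ Sum.inl a → ∃ j, β (x, j) = true
  fn : ∀ x j j', β (x, j) = true → β (x, j') = true → j = j'
  miss : ∀ j, β (Sum.inl a, j) = false

lemma crit_rename (a : A) (β : (A ⊕ B) × J → Bool) (π : Perm A) (h : Crit (π a) β) :
    Crit a (fun x => β (Sum.map π id x.1, x.2)) := by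
  have hinj : Function.Injective (Sum.map π id : A ⊕ B → A ⊕ B) :=
    Sum.map_injective.2 ⟨π.injective, Function.injective_id⟩
  constructor
  · intro j
    obtain ⟨x, hx⟩ := h.onto j
    refine ⟨Sum.map (⇑(π⁻¹)) id x, ?_⟩
    rcases x with a' | b
    · simpa using hx
    · simpa using hx
  · intro j x y hx hy
    exact hinj (h.inj j _ _ hx hy)
  · intro x hx
    refine h.total (Sum.map π id x) (fun e => hx ?_)
    exact hinj (by rw [e]; rfl)
  · intro x j j' h1 h2
    exact h.fn _ j j' h1 h2
  · intro j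
    exact h.miss j

variable [Fintype A] [DecidableEq A]

open Classical in
/-- the pigeons which can be missing in a critical assignment that falsifies `f` -/
noncomputable def Mis (f : ((A ⊕ B) × J → Bool) → Prop) : Finset A :=
  Finset.univ.filter (fun a => ∃ β, Crit a β ∧ ¬ f β)

lemma mem_Mis (f : ((A ⊕ B) × J → Bool) → Prop) (a : A) :
    a ∈ Mis f ↔ ∃ β, Crit a β ∧ ¬ f β := by
  classical
  unfold Mis
  rw [Finset.mem_filter]
  exact and_iff_right (Finset.mem_univ _)

lemma mis_rename (f : ((A ⊕ B) × J → Bool) → Prop) (π : Perm A) :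
    Mis (fun β => f (fun x => β (Sum.map π id x.1, x.2))) = (Mis f).image π := by
  ext a
  rw [mem_Mis, Finset.mem_image]
  constructor
  · rintro ⟨β, hβ, hf⟩
    refine ⟨π⁻¹ a, (mem_Mis f _).2 ⟨_, crit_rename (π⁻¹ a) β π (by rw [pinv1]; exact hβ), hf⟩,
      pinv1 _ _⟩
  · rintro ⟨a', ha', rfl⟩
    rw [mem_Mis] at ha'
    obtain ⟨β, hβ, hf⟩ := ha'
    refine ⟨fun x => β (Sum.map (⇑(π⁻¹)) id x.1, x.2), ?_, ?_⟩
    · exact crit_rename (π a') β π⁻¹ (by rw [pinv2]; exact hβ)
    · have : (fun x : (A ⊕ B) × J => (fun x : (A ⊕ B) × J => β (Sum.map (⇑(π⁻¹)) id x.1, x.2))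
          (Sum.map π id x.1, x.2)) = β := by
        funext x
        obtain ⟨y, j⟩ := x
        rcases y with a | b
        · simp
        · simp
      rw [this]
      exact hf

lemma exists_crit [Fintype B] [Fintype J]
    (hc : Fintype.card A + Fintype.card B = Fintype.card J + 1) (a : A) :
    ∃ β : (A ⊕ B) × J → Bool, Crit a β := by
  classical
  have h2 : Fintype.card {x : A ⊕ B // ¬ x = Sum.inl a} = Fintype.card J := by
    rw [Fintype.card_subtype_compl, Fintype.card_subtype_eq, Fintype.card_sum]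
    omega
  have e : {x : A ⊕ B // ¬ x = Sum.inl a} ≃ J := Fintype.equivOfCardEq h2
  have key : ∀ x j, (if h : x.1 = Sum.inl a then false else decide (e ⟨x.1, h⟩ = x.2)) =
      true ↔ ∃ h : ¬ x.1 = Sum.inl a, e ⟨x.1, h⟩ = (x : (A ⊕ B) × J).2 ∨ (j : Bool) ≠ j := by
    intro x j
    by_cases h : x.1 = Sum.inl a
    · simp [h]
    · simp [h]
  refine ⟨fun x => if h : x.1 = Sum.inl a then false else decide (e ⟨x.1, h⟩ = x.2),
    ?_, ?_, ?_, ?_, ?_⟩
  · intro j
    refine ⟨(e.symm j : A ⊕ B), ?_⟩
    rw [dif_neg (e.symm j).2]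
    simp
  · intro j x y hx hy
    obtain ⟨h1, h1' | h1'⟩ := (key (x, j) true).1 hx
    · obtain ⟨h2, h2' | h2'⟩ := (key (y, j) true).1 hy
      · have := h1'.trans h2'.symm
        exact congrArg Subtype.val (e.injective this)
      · exact absurd rfl h2'
    · exact absurd rfl h1'
  · intro x hx
    refine ⟨e ⟨x, hx⟩, (key (x, e ⟨x, hx⟩) true).2 ⟨hx, Or.inl rfl⟩⟩
  · intro x j j' hx hy
    obtain ⟨h1, h1' | h1'⟩ := (key (x, j) true).1 hx
    · obtain ⟨h2, h2' | h2'⟩ := (key (x, j') true).1 hy
      · exact h1'.symm.trans h2'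
      · exact absurd rfl h2'
    · exact absurd rfl h1'
  · intro j
    simp

theorem bounded_premises [Fintype B] [Fintype J] (k T : ℕ) (hk : 1 ≤ k)
    (hc : Fintype.card A + Fintype.card B = Fintype.card J + 1)
    (f : ℕ → ((A ⊕ B) × J → Bool) → Prop) (hf : SemanticRefutation k T f) :
    ∃ i ≤ T, 2 ^ (Fintype.card A / (k + 1)) ≤ (Images (f i)).ncard := by
  classical
  obtain ⟨m, hm⟩ : ∃ m, m = Fintype.card A := ⟨_, rfl⟩
  rw [← hm]
  by_cases hm0 : m = 0
  · refine ⟨T, le_rfl, ?_⟩
    rw [hm0, Nat.zero_div, pow_zero]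
    exact (Set.ncard_pos (Set.finite_range _)).2 ⟨_, ⟨1, rfl⟩⟩
  -- the last line
  have hlast : Mis (f T) = Finset.univ := by
    ext a
    rw [mem_Mis]
    obtain ⟨β, hβ⟩ := exists_crit hc a
    exact ⟨fun _ => Finset.mem_univ _, fun _ => ⟨β, hβ, hf.2 β⟩⟩
  have hex : ∃ i, i ≤ T ∧ m < (k + 1) * (Mis (f i)).card := by
    refine ⟨T, le_rfl, ?_⟩
    rw [hlast, Finset.card_univ, ← hm]
    have : (k + 1) * m = k * m + m := by ring
    have h2 : 1 * m ≤ k * m := Nat.mul_le_mul_right _ hk
    omega
  have hfind := Nat.find_spec hex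
  have hmin := fun j => Nat.find_min hex (m := j)
  obtain ⟨i, hi⟩ : ∃ i, i = Nat.find hex := ⟨_, rfl⟩
  rw [← hi] at hfind hmin
  refine ⟨i, hfind.1, ?_⟩
  -- the upper bound for the number of pigeons
  have hup : (k + 1) * (Mis (f i)).card ≤ k * m ∨ (Mis (f i)).card ≤ 1 := by
    rcases hf.1 i hfind.1 with ⟨C, hC, hCf⟩ | ⟨Q, hQ, hQi, hQf⟩
    · right
      rw [Finset.card_le_one]
      intro a ha b hb
      rw [mem_Mis] at ha hb
      have key : ∀ a : A, (∃ β, Crit a β ∧ ¬ f i β) → C = {l | ∃ j, l = ((Sum.inl a, j), true)} := by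
        rintro a ⟨β, hβ, hfβ⟩
        have hns : ¬ Sat C β := fun h => hfβ (hCf β h)
        rcases hC with x | ⟨x, y, j, hxy⟩ | ⟨x, j, j', hjj⟩ | j
        · by_cases hx : x = Sum.inl a
          · rw [hx]
          · obtain ⟨j, hj⟩ := hβ.total x hx
            exact absurd ⟨((x, j), true), ⟨j, rfl⟩, hj⟩ hns
        · exfalso
          apply hns
          by_cases h1 : β (x, j) = true
          · refine ⟨((y, j), false), by simp, ?_⟩
            by_contra h2
            rw [Bool.not_eq_false] at h2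
            exact hxy (hβ.inj j x y h1 h2)
          · exact ⟨((x, j), false), by simp, by simpa using h1⟩
        · exfalso
          apply hns
          by_cases h1 : β (x, j) = true
          · refine ⟨((x, j'), false), by simp, ?_⟩
            by_contra h2
            rw [Bool.not_eq_false] at h2
            exact hjj (hβ.fn x j j' h1 h2)
          · exact ⟨((x, j), false), by simp, by simpa using h1⟩
        · exfalso
          obtain ⟨x, hx⟩ := hβ.onto j
          exact hns ⟨((x, j), true), ⟨x, rfl⟩, hx⟩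
      have h1 := key a ha
      have h2 := key b hb
      obtain ⟨β, hβ, _⟩ := ha
      by_cases hJ : Nonempty J
      · obtain ⟨j⟩ := hJ
        have h3 : (((Sum.inl a : A ⊕ B), j), true) ∈ C := by rw [h1]; exact ⟨j, rfl⟩
        rw [h2] at h3
        obtain ⟨j', hj'⟩ := h3
        exact Sum.inl.inj (Prod.mk.inj (Prod.mk.inj hj').1).1
      · by_contra hab
        obtain ⟨j, _⟩ := hβ.total (Sum.inl b) (fun e => hab (Sum.inl.inj e).symm)
        exact hJ ⟨j⟩
    · left
      have hsub : Mis (f i) ⊆ Q.biUnion (fun j => Mis (f j)) := by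
        intro a ha
        rw [mem_Mis] at ha
        obtain ⟨β, hβ, hfβ⟩ := ha
        have : ∃ j ∈ Q, ¬ f j β := by
          by_contra hcon
          push Not at hcon
          exact hfβ (hQf β hcon)
        obtain ⟨j, hj, hfj⟩ := this
        rw [Finset.mem_biUnion]
        exact ⟨j, hj, (mem_Mis _ _).2 ⟨β, hβ, hfj⟩⟩
      have h1 : ∀ j ∈ Q, (k + 1) * (Mis (f j)).card ≤ m := by
        intro j hj
        have h2 := hmin j (hQi j hj)
        have h3 := hQi j hj
        by_contra h4
        exact h2 ⟨by omega, by omega⟩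
      calc (k + 1) * (Mis (f i)).card ≤ (k + 1) * ∑ j ∈ Q, (Mis (f j)).card :=
            Nat.mul_le_mul_left _ ((Finset.card_le_card hsub).trans Finset.card_biUnion_le)
        _ = ∑ j ∈ Q, (k + 1) * (Mis (f j)).card := Finset.mul_sum _ _ _
        _ ≤ ∑ _j ∈ Q, m := Finset.sum_le_sum h1
        _ = Q.card * m := by rw [Finset.sum_const, smul_eq_mul]
        _ ≤ k * m := Nat.mul_le_mul_right _ hQ
  obtain ⟨c, hcdef⟩ : ∃ c, c = (Mis (f i)).card := ⟨_, rfl⟩
  rw [← hcdef] at hup hfind
  have hcm : c ≤ m := by rw [hcdef, hm]; exact Finset.card_le_univ _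
  have hq1 : m / (k + 1) ≤ c := by
    have := Nat.div_mul_le_self m (k + 1)
    by_contra h
    push Not at h
    have h2 : (k + 1) * c ≤ (k + 1) * (m / (k + 1)) := Nat.mul_le_mul_left _ h.le
    have h3 : (k + 1) * (m / (k + 1)) = m / (k + 1) * (k + 1) := mul_comm _ _
    omega
  have hq2 : m / (k + 1) ≤ m - c := by
    have h4 := Nat.div_mul_le_self m (k + 1)
    rcases hup with hup | hup
    · have h5 : m / (k + 1) * (k + 1) ≤ (m - c) * (k + 1) := by
        have h6 : (m - c) * (k + 1) = (k + 1) * m - (k + 1) * c := by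
          rw [mul_comm, Nat.mul_sub]
        have h7 : (k + 1) * m = k * m + m := by ring
        omega
      exact Nat.le_of_mul_le_mul_right h5 (Nat.succ_pos k)
    · have h8 : m / (k + 1) ≤ m / 2 := Nat.div_le_div_left (by omega) (by norm_num)
      have h9 : m < (k + 1) * c := hfind.2
      have h10 : (k + 1) * c ≤ (k + 1) * 1 := Nat.mul_le_mul_left _ hup
      have h11 : m / (k + 1) = 0 := Nat.div_eq_of_lt (by omega)
      omega
  have h8 := two_pow_le_choose (m / (k + 1)) c (m - c) hq1 hq2
  rw [Nat.add_sub_cancel' hcm] at h8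
  refine h8.trans ?_
  -- the images of the set
  have h9 : (m.choose c) = ((Finset.univ : Finset A).powersetCard c).card := by
    rw [Finset.card_powersetCard, Finset.card_univ, ← hm]
  rw [h9, ← Set.ncard_coe_finset]
  have h10 : (((Finset.univ : Finset A).powersetCard c : Finset (Finset A)) : Set (Finset A)) ⊆
      Mis '' (Images (f i)) := by
    intro X hX
    rw [Finset.mem_coe, Finset.mem_powersetCard] at hX
    obtain ⟨e⟩ : Nonempty ({x // x ∈ Mis (f i)} ≃ {x // x ∈ X}) := by
      refine Fintype.card_eq.1 ?_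
      rw [Fintype.card_coe, Fintype.card_coe, hX.2, hcdef]
    refine ⟨_, ⟨e.extendSubtype, rfl⟩, ?_⟩
    rw [mis_rename]
    refine Finset.eq_of_subset_of_card_le ?_ ?_
    · intro y hy
      rw [Finset.mem_image] at hy
      obtain ⟨x, hx, rfl⟩ := hy
      exact e.extendSubtype_mem x hx
    · rw [Finset.card_image_of_injective _ (e.extendSubtype).injective, hX.2, hcdef]
  exact (Set.ncard_le_ncard h10 ((Set.finite_range _).image _)).trans
    (Set.ncard_image_le (Set.finite_range _))

end Pool.Agent.V8H46.Sym
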