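import Pool.Agent.V8H46.Sym.Rules

/-!
# The lower bound
-/

set_option autoImplicit false

namespace Pool.Agent.V8H46.Sym

open Equiv Equiv.Perm Finset MulAction

lemma exists_state {A B J : Type} [Fintype A] [DecidableEq A] [Fintype B] [Fintype J] (t : ℕ)
    (hc : Fintype.card A + Fintype.card B = Fintype.card J + t) (E : Finset A) (hE : E.card = t) :
    ∃ α : A ⊕ B → Option J, IsState α ∧ ∀ a, α (Sum.inl a) = none → a ∈ E := by
  classical
  have h1 : Fintype.card {x : A ⊕ B // ∃ a ∈ E, x = Sum.inl a} = t := by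
    rw [← hE, ← Finset.card_image_of_injective E (Sum.inl_injective (β := B))]
    refine Fintype.card_of_subtype _ (fun x => ?_)
    rw [Finset.mem_image]
    constructor
    · rintro ⟨a, ha, h⟩; exact ⟨a, ha, h.symm⟩
    · rintro ⟨a, ha, h⟩; exact ⟨a, ha, h.symm⟩
  have h2 : Fintype.card {x : A ⊕ B // ¬ ∃ a ∈ E, x = Sum.inl a} = Fintype.card J := by
    rw [Fintype.card_subtype_compl, h1, Fintype.card_sum]
    omega
  have e : {x : A ⊕ B // ¬ ∃ a ∈ E, x = Sum.inl a} ≃ J := Fintype.equivOfCardEq h2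
  refine ⟨fun x => if h : ∃ a ∈ E, x = Sum.inl a then none else some (e ⟨x, h⟩), ⟨?_, ?_, ?_⟩, ?_⟩
  · intro j
    refine ⟨(e.symm j : A ⊕ B), ?_⟩
    rw [dif_neg (e.symm j).2]
    simp
  · intro x y j hx hy
    by_cases hx' : ∃ a ∈ E, x = Sum.inl a
    · simp [dif_pos hx'] at hx
    by_cases hy' : ∃ a ∈ E, y = Sum.inl a
    · simp [dif_pos hy'] at hy
    rw [dif_neg hx', Option.some.injEq] at hx
    rw [dif_neg hy', Option.some.injEq] at hy
    rw [← hy] at hx
    exact congrArg Subtype.val (e.injective hx)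
  · intro b
    rw [dif_neg (by simp)]
    simp
  · intro a ha
    by_cases h : ∃ a' ∈ E, (Sum.inl a : A ⊕ B) = Sum.inl a'
    · obtain ⟨a', ha', h'⟩ := h
      rw [Sum.inl.inj h']
      exact ha'
    · beta_reduce at ha
      rw [dif_neg h] at ha
      exact absurd ha (Option.some_ne_none _)

theorem lower_bound {p : ℕ} [Fact p.Prime] (k l t : ℕ) {A B J G : Type} [Fintype A]
    [DecidableEq A] [Fintype B] [Fintype J] [DecidableEq G] [Fintype G] [MulAction (Perm A) G]
    (F : Formulas p A B J G) (hc : Fintype.card A + Fintype.card B = Fintype.card J + t)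
    (ht : p ^ l ∣ t) (hA : (k + 7) * (p ^ l) ^ 2 + t ≤ Fintype.card A)
    (L : G) (hL : F.Derivable k L) (hL0 : F.gate L = Gate.or ∅) :
    ∃ g : G, 2 ^ (p ^ l) ≤ 2 * p ^ l * (orbit (Perm A) g).ncard := by
  classical
  by_contra hcon
  push Not at hcon
  obtain ⟨q, hq⟩ : ∃ q, q = p ^ l := ⟨_, rfl⟩
  rw [← hq] at ht hA hcon
  obtain ⟨u, hu⟩ := ht
  have hq1 : 1 ≤ q := by
    rw [hq]; exact Nat.one_le_pow _ _ (Fact.out : p.Prime).pos
  have hG : ∀ g : G, (stabilizer (Perm A) g).index * (2 * q) < 2 ^ q := by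
    intro g
    rw [MulAction.index_stabilizer, mul_comm]
    exact hcon g
  have hq3 : 3 ≤ q := by
    have h1 := hcon L
    have h2 : 1 ≤ (orbit (Perm A) L).ncard := by
      exact (Set.ncard_pos (Set.toFinite _)).2 ⟨L, mem_orbit_self L⟩
    have h3 : 2 * q * 1 ≤ 2 * q * (orbit (Perm A) L).ncard := Nat.mul_le_mul_left _ h2
    by_contra hq3
    have : q = 1 ∨ q = 2 := by omega
    rcases this with h | h
    · rw [h] at h1 h3; omega
    · rw [h] at h1 h3; omega
  obtain ⟨n, rfl⟩ : ∃ n, l = n + 1 := by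
    rcases l with _ | n
    · rw [pow_zero] at hq; omega
    · exact ⟨n, rfl⟩
  have hn : p = 2 → 1 ≤ n := by
    intro hp
    by_contra h0
    have : n = 0 := by omega
    rw [this, hp] at hq
    norm_num at hq
    omega
  have hqq : q ≤ q ^ 2 := by nlinarith
  have hkq : k * q ≤ k * q ^ 2 := Nat.mul_le_mul_left _ hqq
  have e1 : (k + 7) * q ^ 2 = k * q ^ 2 + 7 * q ^ 2 := by ring
  have e2 : (k + 4) * q = k * q + 4 * q := by ring
  have hm : 2 * q ^ 2 ≤ Fintype.card A := by omega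
  have hk : (k + 4) * q + t + 2 ≤ Fintype.card A := by omega
  have hvalid := valid_of_derivable n q t u hq hu hn hm hG hc F k hk L hL
  have hOm := card_Om q hq1 hm hG L (A := A)
  obtain ⟨E, hE1, hE2⟩ := Finset.exists_subset_card_eq (s := Om (A := A) q L) (n := t) (by omega)
  obtain ⟨α, hα, hα2⟩ := exists_state (B := B) (J := J) t hc E hE2
  have h1 := hvalid α hα (fun a ha => hE1 (hα2 a ha))
  rw [V_or F q α L ∅ hL0] at h1
  obtain ⟨_, h, hh, _⟩ := h1
  exact absurd hh (Finset.notMem_empty _)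

/-- suitable powers of `p` -/
theorem exists_power (p k N : ℕ) (hp : p.Prime) (hN : k + 8 ≤ N) :
    ∃ l, (k + 8) * (p ^ l) ^ 2 ≤ N ∧ N < (k + 8) * p ^ 2 * (p ^ l) ^ 2 := by
  classical
  have hex : ∃ l, N < (k + 8) * (p ^ l) ^ 2 := by
    refine ⟨N, ?_⟩
    have h1 : N < p ^ N := Nat.lt_pow_self hp.one_lt
    have h2 : p ^ N ≤ (p ^ N) ^ 2 := by nlinarith [Nat.zero_le (p ^ N)]
    calc N < p ^ N := h1
      _ ≤ (p ^ N) ^ 2 := h2
      _ ≤ (k + 8) * (p ^ N) ^ 2 := Nat.le_mul_of_pos_left _ (by omega)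
  have hfind := Nat.find_spec hex
  have hmin := fun m => Nat.find_min hex (m := m)
  rcases hf : Nat.find hex with _ | l
  · rw [hf] at hfind
    simp only [pow_zero, one_pow, mul_one] at hfind
    omega
  · refine ⟨l, ?_, ?_⟩
    · have := hmin l (by omega)
      omega
    · rw [hf] at hfind
      calc N < _ := hfind
        _ = _ := by ring

end Pool.Agent.V8H46.Sym
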