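import Mathlib

/-!
# A transitive p-group of even permutations, and sums of invariant functions
-/

set_option autoImplicit false

namespace Pool.Agent.V8H46.Sym

open Equiv Equiv.Perm Finset MulAction

/-- the sum of an invariant function which vanishes on the fixed points -/
lemma sum_eq_zero {p : ℕ} [Fact p.Prime] {M Y : Type} [Group M] (hM : IsPGroup p M)
    [Fintype Y] [MulAction M Y] (f : Y → ZMod p) (hf : ∀ (m : M) (y : Y), f (m • y) = f y)
    (h0 : ∀ y, (∀ m : M, m • y = y) → f y = 0) : ∑ y, f y = 0 := by
  classical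
  have h1 : ∑ y, f y = ∑ v : ZMod p, ∑ y ∈ Finset.univ.filter (fun y => f y = v), f y :=
    (Finset.sum_fiberwise _ _ _).symm
  rw [h1]
  refine Finset.sum_eq_zero (fun v _ => ?_)
  have h2 : ∑ y ∈ Finset.univ.filter (fun y => f y = v), f y =
      ((Finset.univ.filter (fun y => f y = v)).card : ZMod p) * v := by
    rw [Finset.sum_congr rfl (fun y hy => (Finset.mem_filter.1 hy).2), Finset.sum_const,
      nsmul_eq_mul]
  rw [h2]
  by_cases hv : v = 0
  · rw [hv, mul_zero]
  let S : SubMulAction M Y :=
    { carrier := {y | f y = v}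
      smul_mem' := by
        intro m y hy
        have hy' : f y = v := hy
        change f (m • y) = v
        rw [hf, hy'] }
  have h3 := hM.card_modEq_card_fixedPoints S
  have h4 : Nat.card (fixedPoints M S) = 0 := by
    rw [Nat.card_eq_zero]
    left
    constructor
    rintro ⟨⟨y, hy⟩, hfix⟩
    apply hv
    rw [← (show f y = v from hy)]
    refine h0 y (fun m => ?_)
    have := hfix m
    exact congrArg Subtype.val this
  rw [h4] at h3
  have h5 : Nat.card S = (Finset.univ.filter (fun y => f y = v)).card := by
    change Nat.card {y // f y = v} = _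
    rw [Nat.card_eq_fintype_card, Fintype.card_subtype]
  rw [h5] at h3
  have h6 : ((Finset.univ.filter (fun y => f y = v)).card : ZMod p) = 0 := by
    rw [ZMod.natCast_eq_zero_iff]
    exact Nat.modEq_zero_iff_dvd.1 h3
  rw [h6, zero_mul]

section

variable (p n : ℕ) [Fact p.Prime]

/-- an elementary abelian group -/
abbrev El : Type := (Fin n → ZMod p) × ZMod p

/-- the translations -/
def trHom : Multiplicative (El p n) →* Perm (El p n) where
  toFun t := Equiv.addLeft (Multiplicative.toAdd t)
  map_one' := by ext x <;> simp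
  map_mul' s t := by ext x <;> simp

lemma card_El : Fintype.card (El p n) = p ^ (n + 1) := by
  rw [Fintype.card_prod, Fintype.card_fun, ZMod.card, Fintype.card_fin, pow_succ]

lemma sign_trHom (h : p = 2 → 1 ≤ n) (t : Multiplicative (El p n)) : sign (trHom p n t) = 1 := by
  rcases (Nat.Prime.eq_two_or_odd (Fact.out : p.Prime)) with hp | hp
  · have e : trHom p n t = Equiv.prodCongrLeft (fun _ => Equiv.addLeft (Multiplicative.toAdd t).1) *
        Equiv.prodCongrRight (fun _ => Equiv.addLeft (Multiplicative.toAdd t).2) := by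
      ext x <;> rfl
    rw [e, map_mul, sign_prodCongrLeft, sign_prodCongrRight, Finset.prod_const, Finset.prod_const,
      Finset.card_univ, Finset.card_univ, ZMod.card, Fintype.card_fun, ZMod.card, Fintype.card_fin]
    obtain ⟨m, hm⟩ : ∃ m, n = m + 1 := ⟨n - 1, by have := h hp; omega⟩
    have e1 : p ^ n = 2 * 2 ^ m := by rw [hm, hp, pow_succ, mul_comm]
    have sq : ∀ u : ℤˣ, u ^ 2 = 1 := fun u => by rw [pow_two, Int.units_mul_self]
    have sq' : ∀ u : ℤˣ, u ^ p = 1 := fun u => by
      rw [Int.units_pow_eq_pow_mod_two, show p % 2 = 0 by omega, pow_zero]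
    rw [e1, pow_mul, sq, sq', one_pow, mul_one]
  · have h1 : (trHom p n t) ^ p = 1 := by
      rw [← map_pow]
      have : t ^ p = 1 := by
        rw [← ofAdd_toAdd t, ← ofAdd_nsmul]
        have h2 : p • (Multiplicative.toAdd t) = 0 := by
          ext i
          · simp
          · simp
        rw [h2]
        rfl
      rw [this, map_one]
    have h2 : (sign (trHom p n t)) ^ p = 1 := by rw [← map_pow, h1, map_one]
    rw [Int.units_pow_eq_pow_mod_two, hp, pow_one] at h2
    exact h2

/-- the translations of the first coordinate -/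
def trHom' (u : ℕ) : Multiplicative (El p n) →* Perm (El p n × Fin u) where
  toFun t := (trHom p n t).prodCongr (Equiv.refl _)
  map_one' := by ext x <;> simp
  map_mul' s t := by ext x <;> simp

lemma sign_trHom' (u : ℕ) (h : p = 2 → 1 ≤ n) (t : Multiplicative (El p n)) :
    sign (trHom' p n u t) = 1 := by
  have e : trHom' p n u t = Equiv.prodCongrLeft (fun _ => trHom p n t) := by
    ext x <;> rfl
  rw [e, sign_prodCongrLeft, Finset.prod_const, sign_trHom p n h, one_pow]

/-- a p-group of even permutations of `E` all whose orbits in `E` have `p ^ (n + 1)` elements -/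
lemma exists_group {A : Type} [Fintype A] [DecidableEq A] (E : Finset A) (u : ℕ)
    (hE : E.card = p ^ (n + 1) * u) (h : p = 2 → 1 ≤ n) :
    ∃ φ : Multiplicative (El p n) →* Perm A,
      (∀ t, ∃ τ : Perm {x // x ∈ E}, sign τ = 1 ∧ φ t = ofSubtype τ) ∧
      (∀ a ∈ E, ∀ U : Finset A, Fintype.card A < p ^ (n + 1) + U.card → ∃ t, φ t a ∈ U) := by
  classical
  have e : El p n × Fin u ≃ {x // x ∈ E} := Fintype.equivOfCardEq (by
    rw [Fintype.card_prod, card_El, Fintype.card_coe, hE, Fintype.card_fin])
  refine ⟨(ofSubtype : Perm {x // x ∈ E} →* Perm A).comp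
    (e.permCongrHom.toMonoidHom.comp (trHom' p n u)), ?_, ?_⟩
  · intro t
    refine ⟨e.permCongr (trHom' p n u t), ?_, rfl⟩
    rw [sign_permCongr, sign_trHom' p n u h]
  · intro a ha U hU
    have hval : ∀ t : Multiplicative (El p n),
        ((ofSubtype : Perm {x // x ∈ E} →* Perm A).comp
          (e.permCongrHom.toMonoidHom.comp (trHom' p n u)) t : Perm A) a =
          ((e (Multiplicative.toAdd t + (e.symm ⟨a, ha⟩).1, (e.symm ⟨a, ha⟩).2) :
            {x // x ∈ E}) : A) := by
      intro t
      change (ofSubtype (e.permCongr (trHom' p n u t)) : Perm A) a = _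
      rw [ofSubtype_apply_of_mem _ ha, Equiv.permCongr_apply]
      rfl
    by_contra hcon
    push Not at hcon
    have h1 : (Finset.univ : Finset (Multiplicative (El p n))).card ≤ (Finset.univ \ U).card := by
      refine Finset.card_le_card_of_injOn (fun t =>
        ((ofSubtype : Perm {x // x ∈ E} →* Perm A).comp
          (e.permCongrHom.toMonoidHom.comp (trHom' p n u)) t : Perm A) a) ?_ ?_
      · intro t _
        exact Finset.mem_coe.2 (Finset.mem_sdiff.2 ⟨Finset.mem_univ _, hcon t⟩)
      · intro s _ t _ hst
        simp only [hval] at hst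
        have h2 := e.injective (Subtype.ext hst)
        have h3 : Multiplicative.toAdd s + (e.symm ⟨a, ha⟩).1 =
            Multiplicative.toAdd t + (e.symm ⟨a, ha⟩).1 := congrArg Prod.fst h2
        exact Multiplicative.toAdd.injective (add_right_cancel h3)
    rw [Finset.card_univ, Fintype.card_multiplicative, card_El,
      Finset.card_sdiff_of_subset (Finset.subset_univ _), Finset.card_univ] at h1
    have h2 := Finset.card_le_univ U
    have h3 : 0 < p ^ (n + 1) := pow_pos (Fact.out : p.Prime).pos _
    omega

end

end Pool.Agent.V8H46.Sym
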