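import Pool.Agent.V8H46.Sym.Val
import Pool.Agent.V8H46.Sym.Grp

/-!
# Derivable formulas are valid in all states
-/

set_option autoImplicit false

namespace Pool.Agent.V8H46.Sym

open Equiv Equiv.Perm Finset MulAction

section State

variable {A B J : Type} [Fintype A] [DecidableEq A]

/-- a state: a partial bijection from the pigeons onto the holes; the pigeons without a hole
belong to `A` -/
structure IsState (α : A ⊕ B → Option J) : Prop where
  onto : ∀ j, ∃ x, α x = some j
  inj : ∀ x y j, α x = some j → α y = some j → x = y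
  total : ∀ b, α (Sum.inr b) ≠ none

open Classical in
/-- the pigeons without a hole -/
noncomputable def Ex (α : A ⊕ B → Option J) : Finset A :=
  Finset.univ.filter (fun a => α (Sum.inl a) = none)

lemma mem_Ex (α : A ⊕ B → Option J) (a : A) : a ∈ Ex α ↔ α (Sum.inl a) = none := by
  unfold Ex
  rw [Finset.mem_filter]
  simp

lemma act_inl (π : Perm A) (α : A ⊕ B → Option J) (a : A) :
    act π α (Sum.inl a) = α (Sum.inl (π⁻¹ a)) := rfl

lemma act_inr (π : Perm A) (α : A ⊕ B → Option J) (b : B) :
    act π α (Sum.inr b) = α (Sum.inr b) := rfl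

lemma act_mul (π σ : Perm A) (α : A ⊕ B → Option J) : act π (act σ α) = act (π * σ) α := by
  funext x
  rcases x with a | b
  · rw [act_inl, act_inl, act_inl, _root_.mul_inv_rev, Perm.mul_apply]
  · rfl

lemma act_one (α : A ⊕ B → Option J) : act (1 : Perm A) α = α := by
  funext x
  rcases x with a | b
  · rfl
  · rfl

lemma isState_act {α : A ⊕ B → Option J} (h : IsState α) (π : Perm A) : IsState (act π α) := by
  constructor
  · intro j
    obtain ⟨x, hx⟩ := h.onto j
    rcases x with a | b
    · exact ⟨Sum.inl (π a), by rw [act_inl, pinv2]; exact hx⟩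
    · exact ⟨Sum.inr b, hx⟩
  · intro x y j hx hy
    have := h.inj _ _ j hx hy
    rcases x with a | b <;> rcases y with a' | b'
    · simp only [Sum.map_inl, Sum.inl.injEq, EmbeddingLike.apply_eq_iff_eq] at this
      rw [this]
    · simp at this
    · simp at this
    · simpa using this
  · intro b
    exact h.total b

lemma card_Ex [Fintype B] [Fintype J] {e : ℕ} {α : A ⊕ B → Option J} (h : IsState α)
    (hc : Fintype.card A + Fintype.card B = Fintype.card J + e) : (Ex α).card = e := by
  classical
  have h1 : (Finset.univ.filter (fun x : A ⊕ B => α x ≠ none)).card = Fintype.card J := by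
    rw [← Finset.card_univ (α := J)]
    refine Finset.card_bij (fun x hx => (α x).get
      (Option.isSome_iff_ne_none.2 (Finset.mem_filter.1 hx).2)) (fun _ _ => Finset.mem_univ _) ?_ ?_
    · intro x hx y hy hxy
      have h2 : α x = some ((α x).get (Option.isSome_iff_ne_none.2 (Finset.mem_filter.1 hx).2)) := by
        simp
      have h3 : α y = some ((α y).get (Option.isSome_iff_ne_none.2 (Finset.mem_filter.1 hy).2)) := by
        simp
      rw [← hxy] at h3
      exact h.inj x y _ h2 h3
    · intro j _
      obtain ⟨x, hx⟩ := h.onto j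
      refine ⟨x, ?_, ?_⟩
      · rw [Finset.mem_filter]
        exact ⟨Finset.mem_univ _, by rw [hx]; simp⟩
      · simp [hx]
  have h2 : (Finset.univ.filter (fun x : A ⊕ B => α x = none)).card = (Ex α).card := by
    symm
    refine Finset.card_bij (fun a _ => Sum.inl a) ?_ ?_ ?_
    · intro a ha
      rw [mem_Ex] at ha
      rw [Finset.mem_filter]
      exact ⟨Finset.mem_univ _, ha⟩
    · intro a _ a' _ haa
      exact Sum.inl.inj haa
    · intro x hx
      rw [Finset.mem_filter] at hx
      rcases x with a | b
      · exact ⟨a, (mem_Ex α a).2 hx.2, rfl⟩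
      · exact absurd hx.2 (h.total b)
  have h3 := Finset.card_filter_add_card_filter_not (s := (Finset.univ : Finset (A ⊕ B)))
    (fun x => α x = none)
  rw [Finset.card_univ, Fintype.card_sum] at h3
  have h4 : (Finset.univ.filter (fun x : A ⊕ B => ¬ α x = none)).card = Fintype.card J := h1
  omega

end State

section Main

variable {p : ℕ} {A B J G : Type} [Fintype A] [DecidableEq A] [Fintype B] [Fintype J]
  [DecidableEq G] [MulAction (Perm A) G] [Fintype G]

variable (q e : ℕ) (hq : 1 ≤ q) (hm : 2 * q ^ 2 ≤ Fintype.card A)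
  (hG : ∀ g : G, (stabilizer (Perm A) g).index * (2 * q) < 2 ^ q)
  (hc : Fintype.card A + Fintype.card B = Fintype.card J + e)

include hq hm hG hc

omit [Fintype B] [Fintype J] [DecidableEq G] [Fintype G] hq hm hG hc in
lemma good_iff (α : A ⊕ B → Option J) (g : G) : Good q α g ↔ Ex α ⊆ Om q g := by
  unfold Good
  constructor
  · intro h a ha
    exact h a ((mem_Ex α a).1 ha)
  · intro h a ha
    exact h ((mem_Ex α a).2 ha)

/-- the pigeons without a hole can be moved away from a small set -/
lemma move (L : G) (D : Finset A) (hD : D.card + q + e + 1 ≤ Fintype.card A) (n : ℕ) :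
    ∀ α : A ⊕ B → Option J, IsState α → Good q α L → (Ex α ∩ D).card ≤ n →
      ∃ π : Perm A, π • L = L ∧ Ex (act π α) ∩ D = ∅ := by
  classical
  induction n with
  | zero =>
    intro α _ _ h
    refine ⟨1, one_smul _ _, ?_⟩
    rw [act_one]
    exact Finset.card_eq_zero.1 (Nat.le_zero.1 h)
  | succ n ih =>
    intro α hα hgood h
    by_cases h0 : (Ex α ∩ D).card ≤ n
    · exact ih α hα hgood h0
    obtain ⟨a, ha⟩ : (Ex α ∩ D).Nonempty := by
      rw [← Finset.card_pos]; omega
    have hOm := card_Om q hq hm hG L (A := A)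
    have hEx := card_Ex hα hc
    have h1 : 1 < (Om (A := A) q L \ (D ∪ Ex α)).card := by
      have h2 := Finset.le_card_sdiff (D ∪ Ex α) (Om (A := A) q L)
      have h3 := Finset.card_union_le D (Ex α)
      omega
    obtain ⟨b, hb, b', hb', hbb⟩ := Finset.one_lt_card.1 h1
    rw [Finset.mem_sdiff, Finset.mem_union, not_or] at hb hb'
    rw [Finset.mem_inter] at ha
    have haO : a ∈ Om q L := (good_iff q α L).1 hgood ha.1
    have hab : a ≠ b := fun e => hb.2.2 (e ▸ ha.1)
    have hab' : a ≠ b' := fun e => hb'.2.2 (e ▸ ha.1)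
    have hfix := T_of_mem_Om q hq hm hG L haO hb.1 hb'.1 hab hab' hbb
    have hsub : Ex (act (cyc a b b') α) ∩ D ⊆ (Ex α ∩ D).erase a := by
      intro x hx
      rw [Finset.mem_inter, mem_Ex, act_inl] at hx
      obtain ⟨y, hy⟩ : ∃ y, y = (cyc a b b')⁻¹ x := ⟨_, rfl⟩
      have hxy : x = cyc a b b' y := by rw [hy, pinv1]
      rw [← hy] at hx
      have hyE : y ∈ Ex α := (mem_Ex α y).2 hx.1
      by_cases hya : y = a
      · rw [hxy, hya, cyc_fst hab hab'] at hx
        exact absurd hx.2 hb.2.1
      · have hyb : y ≠ b := fun e => hb.2.2 (e ▸ hyE)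
        have hyb' : y ≠ b' := fun e => hb'.2.2 (e ▸ hyE)
        rw [cyc_of_ne hya hyb hyb'] at hxy
        rw [Finset.mem_erase, Finset.mem_inter, hxy]
        exact ⟨hya, hyE, hxy ▸ hx.2⟩
    have hcard : (Ex (act (cyc a b b') α) ∩ D).card ≤ n := by
      have h2 := Finset.card_le_card hsub
      rw [Finset.card_erase_of_mem (Finset.mem_inter.2 ha)] at h2
      omega
    obtain ⟨π, hπ, hπ2⟩ := ih (act (cyc a b b') α) (isState_act hα _) (by
      have := (good_act q α L (cyc a b b')).2 hgood
      rwa [hfix] at this) hcard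
    refine ⟨π * cyc a b b', ?_, ?_⟩
    · rw [mul_smul, hfix, hπ]
    · rw [← act_mul]
      exact hπ2

variable (F : Formulas p A B J G) (k : ℕ) (hk : (k + 4) * q + e + 2 ≤ Fintype.card A)

/-- `L` is true in all states which are good for it -/
def Valid (F : Formulas p A B J G) (q : ℕ) (L : G) : Prop :=
  ∀ α : A ⊕ B → Option J, IsState α → Good q α L → V F q α L

include hk

lemma valid_of (L : G) (S : Finset G) (hS : S.card ≤ k + 3) (D0 : Finset A) (hD0 : D0.card ≤ 1)
    (h : ∀ α : A ⊕ B → Option J, IsState α → Good q α L → (∀ g ∈ S, Good q α g) →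
      (∀ a ∈ D0, α (Sum.inl a) ≠ none) → V F q α L) : Valid F q L := by
  classical
  intro α hα hgood
  obtain ⟨D, hD⟩ : ∃ D, D = S.biUnion (fun g => (Finset.univ : Finset A) \ Om q g) ∪ D0 := ⟨_, rfl⟩
  have hDc : D.card + q + e + 1 ≤ Fintype.card A := by
    have h1 : (S.biUnion (fun g => (Finset.univ : Finset A) \ Om q g)).card ≤ S.card * q := by
      refine Finset.card_biUnion_le_card_mul _ _ _ (fun g _ => ?_)
      have h2 := card_Om q hq hm hG g (A := A)
      rw [Finset.card_sdiff_of_subset (Finset.subset_univ _), Finset.card_univ]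
      omega
    have h2 := Finset.card_union_le (S.biUnion (fun g => (Finset.univ : Finset A) \ Om q g)) D0
    rw [← hD] at h2
    have h3 : S.card * q ≤ (k + 3) * q := Nat.mul_le_mul_right _ hS
    have h4 : (k + 4) * q = (k + 3) * q + q := by ring
    omega
  obtain ⟨π, hπ, hπ2⟩ := move q e hq hm hG hc L D hDc _ α hα hgood le_rfl
  have h1 : V F q (act π α) L := by
    refine h (act π α) (isState_act hα π) ?_ ?_ ?_
    · have := (good_act q α L π).2 hgood
      rwa [hπ] at this
    · intro g hg a ha
      by_contra hcon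
      have : a ∈ Ex (act π α) ∩ D := by
        rw [Finset.mem_inter, mem_Ex, hD, Finset.mem_union, Finset.mem_biUnion]
        exact ⟨ha, Or.inl ⟨g, hg, Finset.mem_sdiff.2 ⟨Finset.mem_univ _, hcon⟩⟩⟩
      rw [hπ2] at this
      exact absurd this (Finset.notMem_empty _)
    · intro a ha hcon
      have : a ∈ Ex (act π α) ∩ D := by
        rw [Finset.mem_inter, mem_Ex, hD, Finset.mem_union]
        exact ⟨hcon, Or.inr ha⟩
      rw [hπ2] at this
      exact absurd this (Finset.notMem_empty _)
  have h2 := rank_smul_V F q π α L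
  rw [hπ] at h2
  exact h2.1 h1

omit hc in
lemma var_good (α : A ⊕ B → Option J) (h : G) (x : A ⊕ B) (j : J)
    (hg : F.gate h = Gate.var (x, j)) (hx : α x ≠ none) : Good q α h := by
  classical
  have h5 : 4 * q ≤ (k + 4) * q := Nat.mul_le_mul_right _ (by omega)
  rcases x with a | b
  · have h1 := subset_Om q hq hm hG h (Finset.univ.erase a) (by
      rw [Finset.card_erase_of_mem (Finset.mem_univ _), Finset.card_univ]; omega) (by
      rw [Finset.card_erase_of_mem (Finset.mem_univ _), Finset.card_univ]; omega) (by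
      intro i hi j' hj k' hk' _ _ _
      apply F.inj
      rw [F.equivariant, hg]
      simp only [Gate.rename, Sum.map_inl]
      rw [cyc_of_ne (Finset.mem_erase.1 hi).1.symm (Finset.mem_erase.1 hj).1.symm
        (Finset.mem_erase.1 hk').1.symm])
    intro a' ha'
    refine h1 (Finset.mem_erase.2 ⟨?_, Finset.mem_univ _⟩)
    rintro rfl
    exact hx ha'
  · have h1 := subset_Om q hq hm hG h Finset.univ (by
      rw [Finset.card_univ]; omega) (by rw [Finset.card_univ]; omega) (by
      intro i hi j' hj k' hk' _ _ _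
      apply F.inj
      rw [F.equivariant, hg]
      simp only [Gate.rename, Sum.map_inr, id])
    intro a' _
    exact h1 (Finset.mem_univ _)

end Main

end Pool.Agent.V8H46.Sym
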