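import Mathlib

/-!
# Three-cycles in a group of permutations

For a group `H` of permutations of `A`, two points are related if they are equal or lie on a
three-cycle which belongs to `H`. This is an equivalence relation, and `H` contains all even
permutations of every class.
-/

set_option autoImplicit false

namespace Pool.Agent.V8H46.Sym

open Equiv Equiv.Perm Finset

variable {A : Type} [DecidableEq A]

/-- the three-cycle `a ↦ b ↦ c ↦ a` -/
def cyc (a b c : A) : Perm A := swap a b * swap b c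

lemma cyc_fst {a b c : A} (ab : a ≠ b) (ac : a ≠ c) : cyc a b c a = b := by
  simp [cyc, swap_apply_of_ne_of_ne ab ac]

lemma cyc_snd {a b c : A} (bc : b ≠ c) (ac : a ≠ c) : cyc a b c b = c := by
  simp [cyc, swap_apply_of_ne_of_ne ac.symm bc.symm]

lemma cyc_thd {a b c : A} : cyc a b c c = a := by
  simp [cyc]

lemma cyc_of_ne {a b c x : A} (xa : x ≠ a) (xb : x ≠ b) (xc : x ≠ c) : cyc a b c x = x := by
  simp [cyc, swap_apply_of_ne_of_ne xb xc, swap_apply_of_ne_of_ne xa xb]

lemma conj_cyc (π : Perm A) (a b c : A) : π * cyc a b c * π⁻¹ = cyc (π a) (π b) (π c) := by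
  simp [cyc, swap_apply_apply, mul_assoc]

lemma cyc_rot {a b c : A} (ab : a ≠ b) (ac : a ≠ c) (bc : b ≠ c) : cyc a b c = cyc b c a := by
  ext x
  by_cases xa : x = a
  · rw [xa, cyc_fst ab ac, cyc_thd]
  by_cases xb : x = b
  · rw [xb, cyc_snd bc ac, cyc_fst bc ab.symm]
  by_cases xc : x = c
  · rw [xc, cyc_thd, cyc_snd ac.symm ab.symm]
  rw [cyc_of_ne xa xb xc, cyc_of_ne xb xc xa]

lemma cyc_inv (a b c : A) : (cyc a b c)⁻¹ = cyc c b a := by
  simp [cyc, swap_comm]

/-- the three points are distinct and the three-cycle on them belongs to the group -/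
def T (H : Subgroup (Perm A)) (a b c : A) : Prop :=
  a ≠ b ∧ a ≠ c ∧ b ≠ c ∧ cyc a b c ∈ H

variable {H : Subgroup (Perm A)}

lemma T_rot {a b c : A} (h : T H a b c) : T H b c a := by
  obtain ⟨ab, ac, bc, h⟩ := h
  exact ⟨bc, ab.symm, ac.symm, by rwa [← cyc_rot ab ac bc]⟩

lemma T_rev {a b c : A} (h : T H a b c) : T H c b a := by
  obtain ⟨ab, ac, bc, h⟩ := h
  refine ⟨bc.symm, ac.symm, ab.symm, ?_⟩
  rw [← cyc_inv]
  exact H.inv_mem h

lemma T_conj {a b c : A} (h : T H a b c) {π : Perm A} (hπ : π ∈ H) : T H (π a) (π b) (π c) := by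
  obtain ⟨ab, ac, bc, h⟩ := h
  refine ⟨fun e => ab (π.injective e), fun e => ac (π.injective e),
    fun e => bc (π.injective e), ?_⟩
  rw [← conj_cyc]
  exact H.mul_mem (H.mul_mem hπ h) (H.inv_mem hπ)

lemma T_glue {i j k x y : A} (h1 : T H i j x) (h2 : T H j k y) (ik : i ≠ k) : T H i j k := by
  obtain ⟨ij, ix, jx, h1'⟩ := id h1
  obtain ⟨jk, jy, ky, h2'⟩ := id h2
  by_cases xk : x = k
  · rw [← xk]; exact h1
  by_cases yi : y = i
  · rw [yi] at h2
    exact T_rot (T_rot h2)
  by_cases xy : x = y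
  · rw [← xy] at h2 h2' jy ky
    have := T_conj h1 h2'
    rw [cyc_of_ne ij ik ix, cyc_fst jk jy, cyc_thd] at this
    exact T_rot (T_rot (T_rev this))
  · have h3 := T_conj h1 h2'
    rw [cyc_of_ne ij ik (Ne.symm yi), cyc_fst jk jy, cyc_of_ne jx.symm xk xy] at h3
    have h4 := T_conj h1 h3.2.2.2
    rw [cyc_fst ik ix, cyc_of_ne (Ne.symm ij) jk jx, cyc_thd] at h4
    exact T_rev h4

/-- the relation -/
def R (H : Subgroup (Perm A)) (i j : A) : Prop := i = j ∨ ∃ x, T H i j x

lemma R_refl (i : A) : R H i i := Or.inl rfl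

lemma R_symm {i j : A} (h : R H i j) : R H j i := by
  rcases h with h | ⟨x, h⟩
  · exact Or.inl h.symm
  · exact Or.inr ⟨x, T_rot (T_rev h)⟩

lemma T_of_R {i j k : A} (ij : i ≠ j) (ik : i ≠ k) (jk : j ≠ k) (h1 : R H i j) (h2 : R H j k) :
    T H i j k := by
  rcases h1 with h1 | ⟨x, h1⟩
  · exact absurd h1 ij
  rcases h2 with h2 | ⟨y, h2⟩
  · exact absurd h2 jk
  exact T_glue h1 h2 ik

lemma R_trans {i j k : A} (h1 : R H i j) (h2 : R H j k) : R H i k := by
  by_cases ij : i = j
  · rwa [ij]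
  by_cases jk : j = k
  · rwa [← jk]
  by_cases ik : i = k
  · exact Or.inl ik
  right
  have := T_of_R ij ik jk h1 h2
  exact ⟨j, T_rot (T_rot (T_rev this))⟩

lemma R_map {i j : A} (h : R H i j) {π : Perm A} (hπ : π ∈ H) : R H (π i) (π j) := by
  rcases h with h | ⟨x, h⟩
  · left; rw [h]
  · right; exact ⟨π x, T_conj h hπ⟩

/-- all even permutations of a class belong to the group -/
lemma even_mem [Fintype A] (U : Finset A) (hU : ∀ i ∈ U, ∀ j ∈ U, R H i j)
    (τ : Perm {x // x ∈ U}) (hτ : sign τ = 1) : ofSubtype τ ∈ H := by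
  have h1 : alternatingGroup {x // x ∈ U} ≤ H.comap ofSubtype := by
    rw [← closure_three_cycles_eq_alternating, Subgroup.closure_le]
    intro σ hσ
    rw [Set.mem_ofPred_eq] at hσ
    have hne : σ.support.Nonempty := by
      rw [← Finset.card_pos, hσ.card_support]; norm_num
    obtain ⟨a, ha⟩ := hne
    have h2 := hσ.eq_swap_mul_swap_iff_mem_support.2 ha
    have h3 := hσ.nodup_iff_mem_support.2 ha
    simp only [List.nodup_cons, List.mem_cons, List.not_mem_nil, or_false, not_or, not_false_eq_true,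
      List.nodup_nil, and_true] at h3
    obtain ⟨⟨ab, ac⟩, bc⟩ := h3
    rw [SetLike.mem_coe, Subgroup.mem_comap, h2, map_mul, ofSubtype_swap_eq, ofSubtype_swap_eq]
    have h4 := T_of_R (H := H) (i := (a : A)) (j := (σ a : A)) (k := (σ (σ a) : A))
      (fun e => ab (Subtype.ext e)) (fun e => ac (Subtype.ext e)) (fun e => bc (Subtype.ext e))
      (hU _ a.2 _ (σ a).2) (hU _ (σ a).2 _ (σ (σ a)).2)
    exact h4.2.2.2
  exact h1 (mem_alternatingGroup.2 hτ)

end Pool.Agent.V8H46.Sym
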