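import Pool.Agent.V8H46.Sym.Main

/-!
# Soundness of the rules in the states, and the lower bound
-/

set_option autoImplicit false

namespace Pool.Agent.V8H46.Sym

open Equiv Equiv.Perm Finset MulAction

variable {p : ℕ} {A B J G : Type} [Fintype A] [DecidableEq A] [Fintype B] [Fintype J]
  [DecidableEq G] [MulAction (Perm A) G] [Fintype G]

omit [Fintype A] [DecidableEq A] [Fintype B] [Fintype J] [Fintype G] in
/-- a permutation which fixes `D ∨ m` and `m` fixes `D` -/
lemma image_eq (F : Formulas p A B J G) (L m : G) (D : Finset G) (hmD : m ∉ D)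
    (hL : F.gate L = Gate.or (insert m D)) (π : Perm A) (h1 : π • L = L) (h2 : π • m = m) :
    D.image (fun h => π • h) = D := by
  have h3 := F.equivariant π L
  rw [h1, hL] at h3
  simp only [Gate.rename, Gate.or.injEq] at h3
  have h4 : D.image (fun h => π • h) ⊆ D := by
    intro x hx
    rw [Finset.mem_image] at hx
    obtain ⟨y, hy, rfl⟩ := hx
    have h5 : π • y ∈ (insert m D).image (fun h => π • h) :=
      Finset.mem_image_of_mem _ (Finset.mem_insert_of_mem hy)
    rw [← h3, Finset.mem_insert] at h5
    rcases h5 with h5 | h5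
    · exfalso
      have : y = m := by
        rw [← h2] at h5
        exact smul_left_cancel π h5
      exact hmD (this ▸ hy)
    · exact h5
  refine Finset.eq_of_subset_of_card_le h4 ?_
  rw [Finset.card_image_of_injective _ (fun a b h => smul_left_cancel π h)]

omit [Fintype A] [DecidableEq A] [Fintype B] [Fintype J] [Fintype G] in
lemma fix_or (F : Formulas p A B J G) (L t : G) (D : Finset G)
    (hL : F.gate L = Gate.or (insert t D)) (π : Perm A) (h1 : π • t = t)
    (h2 : D.image (fun h => π • h) = D) : π • L = L := by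
  apply F.inj
  rw [F.equivariant, hL]
  simp only [Gate.rename, Finset.image_insert, h1, h2]

variable [Fact p.Prime] (n q e u : ℕ) (hqp : q = p ^ (n + 1)) (heu : e = q * u)
  (hn : p = 2 → 1 ≤ n)
  (hm : 2 * q ^ 2 ≤ Fintype.card A)
  (hG : ∀ g : G, (stabilizer (Perm A) g).index * (2 * q) < 2 ^ q)
  (hc : Fintype.card A + Fintype.card B = Fintype.card J + e)
  (F : Formulas p A B J G) (k : ℕ) (hk : (k + 4) * q + e + 2 ≤ Fintype.card A)

include hqp heu hn hm hG hc hk

theorem valid_of_derivable (L : G) (h : F.Derivable k L) : Valid F q L := by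
  classical
  have hq : 1 ≤ q := by
    rw [hqp]
    exact Nat.one_le_pow _ _ (Fact.out : p.Prime).pos
  have h5q : 4 * q ≤ (k + 4) * q := Nat.mul_le_mul_right _ (by omega)
  induction h with
  | clause C L s hC hL hs =>
    rcases hC with x | ⟨x, y, j, hxy⟩ | ⟨x, j, j', hjj⟩ | j
    · -- totality
      obtain ⟨D0, hD0, hD1⟩ : ∃ D0 : Finset A, D0.card ≤ 1 ∧ ∀ α : A ⊕ B → Option J,
          IsState α → (∀ a ∈ D0, α (Sum.inl a) ≠ none) → α x ≠ none := by
        rcases x with a | b
        · exact ⟨{a}, by simp, fun α _ h => h a (Finset.mem_singleton_self a)⟩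
        · exact ⟨∅, by simp, fun α hα _ => hα.total b⟩
      refine valid_of q e hq hm hG hc F k hk L ∅ (by simp) D0 hD0 ?_
      intro α hα hgood _ hα0
      have hx := hD1 α hα hα0
      obtain ⟨j, hj⟩ := Option.ne_none_iff_exists'.1 hx
      obtain ⟨h, hh, hlit⟩ := hs ((x, j), true) ⟨j, rfl⟩
      rw [V_or F q α L s hL]
      refine ⟨hgood, h, hh, ?_⟩
      rcases hlit with ⟨_, hg⟩ | ⟨hf, _⟩
      · rw [V_var F q α h (x, j) hg]
        exact ⟨var_good q e hq hm hG F k hk α h x j hg hx, hj⟩
      · simp at hf
    · obtain ⟨h1, hh1, hlit1⟩ := hs ((x, j), false) (by simp)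
      obtain ⟨h2, hh2, hlit2⟩ := hs ((y, j), false) (by simp)
      refine valid_of q e hq hm hG hc F k hk L {h1, h2} ?_ ∅ (by simp) ?_
      · exact (Finset.card_le_two).trans (by omega)
      · intro α hα hgood hS _
        rw [V_or F q α L s hL]
        refine ⟨hgood, ?_⟩
        rcases hlit1 with ⟨hf, _⟩ | ⟨_, v1, hv1, hv1'⟩
        · simp at hf
        rcases hlit2 with ⟨hf, _⟩ | ⟨_, v2, hv2, hv2'⟩
        · simp at hf
        by_cases hV1 : V F q α v1
        · refine ⟨h2, hh2, ?_⟩
          rw [V_neg F q α h2 v2 hv2]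
          refine ⟨hS h2 (by simp), ?_⟩
          intro hV2
          rw [V_var F q α v1 _ hv1'] at hV1
          rw [V_var F q α v2 _ hv2'] at hV2
          exact hxy (hα.inj x y j hV1.2 hV2.2)
        · refine ⟨h1, hh1, ?_⟩
          rw [V_neg F q α h1 v1 hv1]
          exact ⟨hS h1 (by simp), hV1⟩
    · obtain ⟨h1, hh1, hlit1⟩ := hs ((x, j), false) (by simp)
      obtain ⟨h2, hh2, hlit2⟩ := hs ((x, j'), false) (by simp)
      refine valid_of q e hq hm hG hc F k hk L {h1, h2} ?_ ∅ (by simp) ?_
      · exact (Finset.card_le_two).trans (by omega)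
      · intro α hα hgood hS _
        rw [V_or F q α L s hL]
        refine ⟨hgood, ?_⟩
        rcases hlit1 with ⟨hf, _⟩ | ⟨_, v1, hv1, hv1'⟩
        · simp at hf
        rcases hlit2 with ⟨hf, _⟩ | ⟨_, v2, hv2, hv2'⟩
        · simp at hf
        by_cases hV1 : V F q α v1
        · refine ⟨h2, hh2, ?_⟩
          rw [V_neg F q α h2 v2 hv2]
          refine ⟨hS h2 (by simp), ?_⟩
          intro hV2
          rw [V_var F q α v1 _ hv1'] at hV1
          rw [V_var F q α v2 _ hv2'] at hV2
          have e1 : α x = some j := hV1.2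
          have e2 : α x = some j' := hV2.2
          rw [e1] at e2
          exact hjj (Option.some.inj e2)
        · refine ⟨h1, hh1, ?_⟩
          rw [V_neg F q α h1 v1 hv1]
          exact ⟨hS h1 (by simp), hV1⟩
    · refine valid_of q e hq hm hG hc F k hk L ∅ (by simp) ∅ (by simp) ?_
      intro α hα hgood _ _
      obtain ⟨x, hx⟩ := hα.onto j
      obtain ⟨h, hh, hlit⟩ := hs ((x, j), true) ⟨x, rfl⟩
      rw [V_or F q α L s hL]
      refine ⟨hgood, h, hh, ?_⟩
      rcases hlit with ⟨_, hg⟩ | ⟨hf, _⟩
      · rw [V_var F q α h (x, j) hg]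
        exact ⟨var_good q e hq hm hG F k hk α h x j hg (by rw [hx]; simp), hx⟩
      · simp at hf
  | loc S Q L hS hL hQ _ hsound ih =>
    refine valid_of q e hq hm hG hc F k hk L S (by omega) ∅ (by simp) ?_
    intro α hα hgood hSg _
    refine hsound (V F q α) (fun g hg => V_respects F q α g (hSg g hg)) ?_
    intro g hg
    exact ih g hg α hα (hSg g (hQ hg))
  | orLeft L x g D S P N hxD hL hx hg hN hP _ ih =>
    refine valid_of q e hq hm hG hc F k hk L {x, g} ?_ ∅ (by simp) ?_
    · exact (Finset.card_le_two).trans (by omega)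
    intro α hα hgood hS _
    by_contra hcon
    have hL' := V_or F q α L _ hL
    have hnx : ¬ V F q α x := fun h => hcon (hL'.2 ⟨hgood, x, Finset.mem_insert_self _ _, h⟩)
    have hnD : ∀ d ∈ D, ¬ V F q α d :=
      fun d hd h => hcon (hL'.2 ⟨hgood, d, Finset.mem_insert_of_mem hd, h⟩)
    have hVg : V F q α g := by
      by_contra hVg
      exact hnx ((V_neg F q α x g hx).2 ⟨hS x (by simp), hVg⟩)
    obtain ⟨hgg, h, hhS, hVh⟩ := (V_or F q α g S hg).1 hVg
    have hgh := V_good F q α h hVh
    have hsub : Om (A := A) q L ∩ Om q g ∩ Om q h ⊆ Om q (P h) := by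
      have hcard : Fintype.card A ≤ 3 * q + (Om (A := A) q L ∩ Om q g ∩ Om q h).card := by
        have h1 := card_Om q hq hm hG L (A := A)
        have h2 := card_Om q hq hm hG g (A := A)
        have h3 := card_Om q hq hm hG h (A := A)
        have h4 := Finset.card_union_add_card_inter (Om (A := A) q L) (Om q g)
        have h5 := Finset.card_union_add_card_inter (Om (A := A) q L ∩ Om q g) (Om q h)
        have h6 := Finset.card_le_univ (Om (A := A) q L ∪ Om q g)
        have h7 := Finset.card_le_univ (Om (A := A) q L ∩ Om q g ∪ Om q h)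
        omega
      refine subset_Om q hq hm hG (P h) _ (by omega) (by omega) ?_
      intro i hi j hj l hl ij il jl
      rw [Finset.mem_inter, Finset.mem_inter] at hi hj hl
      have f1 := T_of_mem_Om q hq hm hG L hi.1.1 hj.1.1 hl.1.1 ij il jl
      have f2 := T_of_mem_Om q hq hm hG g hi.1.2 hj.1.2 hl.1.2 ij il jl
      have f3 := T_of_mem_Om q hq hm hG h hi.2 hj.2 hl.2 ij il jl
      have f4 : cyc i j l • x = x := by
        apply F.inj
        rw [F.equivariant, hx]
        simp only [Gate.rename, f2]
      have f5 : cyc i j l • N h = N h := by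
        apply F.inj
        rw [F.equivariant, hN h hhS]
        simp only [Gate.rename, f3]
      exact fix_or F (P h) (N h) D (hP h hhS) _ f5 (image_eq F L x D hxD hL _ f1 f4)
    have hgP : Good q α (P h) := by
      intro a ha
      exact hsub (Finset.mem_inter.2 ⟨Finset.mem_inter.2 ⟨hgood a ha, hgg a ha⟩, hgh a ha⟩)
    have hVP := ih h hhS α hα hgP
    obtain ⟨_, t, ht, hVt⟩ := (V_or F q α (P h) _ (hP h hhS)).1 hVP
    rw [Finset.mem_insert] at ht
    rcases ht with rfl | ht
    · exact ((V_neg F q α (N h) h (hN h hhS)).1 hVt).2 hVh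
    · exact hnD t ht hVt
  | modSum L m D K P w c hmD hL hmg hK hP _ hinv ih =>
    refine valid_of q e hq hm hG hc F k hk L {m} (by simp) ∅ (by simp) ?_
    intro α hα hgood hS _
    by_contra hcon
    have hL' := V_or F q α L _ hL
    have hnD : ∀ d ∈ D, ¬ V F q α d :=
      fun d hd h => hcon (hL'.2 ⟨hgood, d, Finset.mem_insert_of_mem hd, h⟩)
    have hgm : Good q α m := hS m (Finset.mem_singleton_self m)
    refine hcon (hL'.2 ⟨hgood, m, Finset.mem_insert_self _ _, ?_⟩)
    rw [V_mod F q α m _ _ hmg]
    refine ⟨hgm, ?_⟩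
    have hExc := card_Ex hα hc
    obtain ⟨φ, hφ1, hφ2⟩ := exists_group p n (Ex α) u (by rw [hExc, heu, hqp]) hn
    have hfix : ∀ g : G, Good q α g → ∀ t, φ t • g = g := by
      intro g hg t
      obtain ⟨τ, hτ, hτ2⟩ := hφ1 t
      rw [hτ2]
      exact even_smul q hq hm hG g (Ex α) ((good_iff q α g).1 hg) τ hτ
    have hact : ∀ t, act (φ t) α = α := by
      intro t
      obtain ⟨τ, hτ, hτ2⟩ := hφ1 t
      funext y
      rcases y with a | b
      · rw [act_inl]
        by_cases ha : a ∈ Ex α
        · have h1 : (φ t)⁻¹ a ∈ Ex α := by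
            rw [hτ2, ← map_inv, ofSubtype_apply_of_mem _ ha]
            exact ((τ⁻¹ ⟨a, ha⟩ : {x // x ∈ Ex α})).2
          rw [(mem_Ex α a).1 ha, (mem_Ex α _).1 h1]
        · have h1 : (φ t)⁻¹ a = a := by
            rw [hτ2, ← map_inv, ofSubtype_apply_of_not_mem _ ha]
          rw [h1]
      · rfl
    have hVinv : ∀ t (h : G), V F q α (φ t • h) ↔ V F q α h := by
      intro t h
      have := rank_smul_V F q (φ t) α h
      rwa [hact t] at this
    have hgoodof : ∀ g : G, (∀ t, φ t • g = g) → Good q α g := by
      intro g hg a ha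
      obtain ⟨t, ht⟩ := hφ2 a ((mem_Ex α a).2 ha) (Om q g) (by
        have h1 := card_Om q hq hm hG g (A := A)
        rw [← hqp]
        omega)
      have := mem_Om_smul q g (φ t) a
      rw [hg t] at this
      exact this.1 ht
    -- the action on `K`
    have hKinv : ∀ t, ∀ g ∈ K, φ t • g ∈ K :=
      fun t g hg => hinv (φ t) (hfix L hgood t) (hfix m hgm t) g hg
    let _ : MulAction (Multiplicative (El p n)) {g // g ∈ K} :=
      { smul := fun t g => ⟨φ t • (g : G), hKinv t g g.2⟩
        one_smul := by
          intro g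
          apply Subtype.ext
          change φ 1 • (g : G) = g
          rw [map_one, one_smul]
        mul_smul := by
          intro s t g
          apply Subtype.ext
          change φ (s * t) • (g : G) = φ s • φ t • (g : G)
          rw [map_mul, mul_smul] }
    have hpg : IsPGroup p (Multiplicative (El p n)) := by
      refine IsPGroup.of_card (n := n + 1) ?_
      rw [Nat.card_eq_fintype_card, Fintype.card_multiplicative, card_El]
    have hsum := sum_eq_zero hpg
      (fun g : {g // g ∈ K} => (∑ h, (if V F q α h then w g h else 0)) - c g) (by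
        intro t g
        have e1 := F.equivariant (φ t) (g : G)
        rw [hK g g.2] at e1
        have e2 := hK (φ t • (g : G)) (hKinv t g g.2)
        rw [e2] at e1
        simp only [Gate.rename, Gate.mod.injEq] at e1
        change (∑ h, (if V F q α h then w (φ t • (g : G)) h else 0)) - c (φ t • (g : G)) =
          (∑ h, (if V F q α h then w g h else 0)) - c g
        rw [e1.1, e1.2]
        congr 1
        rw [← Equiv.sum_comp (MulAction.toPerm (φ t) : Perm G)]
        refine Finset.sum_congr rfl (fun h _ => ?_)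
        rw [MulAction.toPerm_apply]
        beta_reduce
        rw [inv_smul_smul]
        exact if_congr (hVinv t h) rfl rfl) (by
        intro g hg
        have hgg : Good q α (g : G) := hgoodof g (fun t => congrArg Subtype.val (hg t))
        have hsub : Om (A := A) q L ∩ Om q m ∩ Om q (g : G) ⊆ Om q (P g) := by
          have hcard : Fintype.card A ≤ 3 * q +
              (Om (A := A) q L ∩ Om q m ∩ Om q (g : G)).card := by
            have h1 := card_Om q hq hm hG L (A := A)
            have h2 := card_Om q hq hm hG m (A := A)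
            have h3 := card_Om q hq hm hG (g : G) (A := A)
            have h4 := Finset.card_union_add_card_inter (Om (A := A) q L) (Om q m)
            have h5 := Finset.card_union_add_card_inter (Om (A := A) q L ∩ Om q m) (Om q (g : G))
            have h6 := Finset.card_le_univ (Om (A := A) q L ∪ Om q m)
            have h7 := Finset.card_le_univ (Om (A := A) q L ∩ Om q m ∪ Om q (g : G))
            omega
          refine subset_Om q hq hm hG (P g) _ (by omega) (by omega) ?_
          intro i hi j hj l hl ij il jl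
          rw [Finset.mem_inter, Finset.mem_inter] at hi hj hl
          have f1 := T_of_mem_Om q hq hm hG L hi.1.1 hj.1.1 hl.1.1 ij il jl
          have f2 := T_of_mem_Om q hq hm hG m hi.1.2 hj.1.2 hl.1.2 ij il jl
          have f3 := T_of_mem_Om q hq hm hG (g : G) hi.2 hj.2 hl.2 ij il jl
          exact fix_or F (P g) g D (hP g g.2) _ f3 (image_eq F L m D hmD hL _ f1 f2)
        have hgP : Good q α (P g) := by
          intro a ha
          exact hsub (Finset.mem_inter.2 ⟨Finset.mem_inter.2 ⟨hgood a ha, hgm a ha⟩, hgg a ha⟩)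
        have hVP := ih g g.2 α hα hgP
        obtain ⟨_, t, ht, hVt⟩ := (V_or F q α (P g) _ (hP g g.2)).1 hVP
        rw [Finset.mem_insert] at ht
        rcases ht with ht | ht
        · rw [ht, V_mod F q α g _ _ (hK g g.2)] at hVt
          change (∑ h, (if V F q α h then w g h else 0)) - c g = 0
          rw [hVt.2, sub_self]
        · exact absurd hVt (hnD t ht))
    have hsum2 : ∑ g ∈ K, ((∑ h, (if V F q α h then w g h else 0)) - c g) = 0 := by
      rw [← Finset.sum_coe_sort K
        (fun g => (∑ h, (if V F q α h then w g h else 0)) - c g)]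
      exact hsum
    rw [Finset.sum_sub_distrib, sub_eq_zero] at hsum2
    rw [← hsum2, Finset.sum_comm]
    refine Finset.sum_congr rfl (fun h _ => ?_)
    by_cases hV : V F q α h
    · simp only [if_pos hV]
    · simp only [if_neg hV, Finset.sum_const_zero]

end Pool.Agent.V8H46.Sym
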