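import Pool.Agent.V8H46.Sym.Bochert

/-!
# Groups of permutations of small index contain all even permutations of a large set
-/

set_option autoImplicit false

namespace Pool.Agent.V8H46.Sym

open Equiv Equiv.Perm Finset

lemma two_pow_le_choose (q c d : ℕ) (hc : q ≤ c) (hd : q ≤ d) : 2 ^ q ≤ (c + d).choose c := by
  have h1 : 2 ^ q ≤ (q + q).choose q := by
    clear hc hd
    induction q with
    | zero => simp
    | succ n ih =>
      have h := Nat.succ_mul_centralBinom_succ n
      have e1 : (n + n).choose n = Nat.centralBinom n := by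
        rw [Nat.centralBinom_eq_two_mul_choose, two_mul]
      have e2 : (n + 1 + (n + 1)).choose (n + 1) = Nat.centralBinom (n + 1) := by
        rw [Nat.centralBinom_eq_two_mul_choose, two_mul]
      rw [e1] at ih
      rw [e2]
      have h2 : (n + 1) * (2 ^ (n + 1)) ≤ (n + 1) * Nat.centralBinom (n + 1) := by
        rw [h, pow_succ]
        calc (n + 1) * (2 ^ n * 2) = 2 * (n + 1) * 2 ^ n := by ring
          _ ≤ 2 * (2 * n + 1) * Nat.centralBinom n :=
            Nat.mul_le_mul (by omega) ih
      exact Nat.le_of_mul_le_mul_left h2 (Nat.succ_pos n)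
  have h2 : (q + q).choose q ≤ (c + q).choose q := Nat.choose_le_choose q (by omega)
  have h3 : (c + q).choose q = (c + q).choose c := by
    rw [← Nat.choose_symm_add]
  have h4 : (c + q).choose c ≤ (c + d).choose c := Nat.choose_le_choose c (by omega)
  omega

lemma two_pow_le_factorial (q : ℕ) (hq : 1 ≤ q) : 2 ^ q ≤ q.factorial * (2 * q) := by
  have : ∀ n : ℕ, 2 ^ n ≤ (n + 1).factorial := by
    intro n
    induction n with
    | zero => simp
    | succ n ih =>
      rw [pow_succ, Nat.factorial_succ, mul_comm (2 ^ n)]
      exact Nat.mul_le_mul (by omega) ih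
  obtain ⟨n, rfl⟩ : ∃ n, q = n + 1 := ⟨q - 1, by omega⟩
  have h := this n
  rw [pow_succ]
  calc 2 ^ n * 2 ≤ (n + 1).factorial * 2 := Nat.mul_le_mul_right _ h
    _ ≤ _ := Nat.mul_le_mul_left _ (by omega)

theorem support {A : Type} [Fintype A] [DecidableEq A] (H : Subgroup (Perm A)) (q : ℕ)
    (hq : 1 ≤ q) (hm : 2 * q ^ 2 ≤ Fintype.card A) (hM : H.index * (2 * q) < 2 ^ q) :
    ∃ i, ∃ U : Finset A, (∀ j, j ∈ U ↔ R H i j) ∧ Fintype.card A + 1 ≤ q + U.card := by
  classical
  let st : Setoid A := ⟨R H, fun a => R_refl a, fun h => R_symm h, fun h1 h2 => R_trans h1 h2⟩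
  let rep : A → A := fun a => Quotient.out (Quotient.mk st a)
  have hrep : ∀ a, R H (rep a) a := fun a => Quotient.exact (Quotient.out_eq (Quotient.mk st a))
  have hrep2 : ∀ a b, R H a b → rep a = rep b := by
    intro a b h
    have : Quotient.mk st a = Quotient.mk st b := Quotient.sound h
    simp only [rep, this]
  let T' : Finset A := Finset.univ.image rep
  have hT' : ∀ a ∈ T', rep a = a := by
    intro a ha
    rw [Finset.mem_image] at ha
    obtain ⟨b, _, rfl⟩ := ha
    exact hrep2 _ _ (hrep b)
  have hinj : ∀ a ∈ T', ∀ b ∈ T', R H a b → a = b := by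
    intro a ha b hb h
    rw [← hT' a ha, ← hT' b hb]
    exact hrep2 a b h
  let cls : A → Finset A := fun r => Finset.univ.filter (fun j => R H r j)
  have hcls : ∀ r j, j ∈ cls r ↔ R H r j := by
    intro r j
    simp only [cls, Finset.mem_filter, Finset.mem_univ, true_and]
  -- the number of classes
  have ht : T'.card < 2 * q := by
    by_contra hcon
    push Not at hcon
    let K : Subgroup (Perm {x // x ∈ T'}) := H.comap ofSubtype
    have h1 := bochert K (by
      rintro a b c ⟨ab, ac, bc, h⟩
      have h2 : ofSubtype (cyc a b c) ∈ H := h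
      rw [cyc, map_mul, ofSubtype_swap_eq, ofSubtype_swap_eq] at h2
      refine ab (Subtype.ext (hinj a a.2 b b.2 (Or.inr ⟨(c : A), fun e => ab (Subtype.ext e),
        fun e => ac (Subtype.ext e), fun e => bc (Subtype.ext e), h2⟩)))
      )
    have h2 : K.index ≤ H.index := by
      have h3 : H.relIndex (⊤ : Subgroup (Perm A)) ≠ 0 := by
        rw [Subgroup.relIndex_top_right]
        exact Subgroup.index_ne_zero_of_finite
      have h4 := Subgroup.relIndex_le_of_le_right (H := H)
        (K := (ofSubtype : Perm {x // x ∈ T'} →* Perm A).range) (L := ⊤) le_top h3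
      rw [Subgroup.relIndex_top_right] at h4
      rw [Subgroup.index_comap]
      exact h4
    have h5 : q.factorial ≤ ((Fintype.card {x // x ∈ T'} + 1) / 2).factorial := by
      refine Nat.factorial_le ?_
      rw [Fintype.card_coe]
      omega
    have h6 := two_pow_le_factorial q hq
    have h7 : q.factorial * (2 * q) ≤ H.index * (2 * q) :=
      Nat.mul_le_mul_right _ (h5.trans (h1.trans h2))
    omega
  have hne : 0 < Fintype.card A := lt_of_lt_of_le (by positivity) hm
  obtain ⟨a0⟩ : Nonempty A := Fintype.card_pos_iff.1 hne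
  obtain ⟨r, hr, hmax⟩ := Finset.exists_max_image T' (fun r => (cls r).card)
    ⟨rep a0, Finset.mem_image_of_mem _ (Finset.mem_univ _)⟩
  have hcard : Fintype.card A ≤ T'.card * (cls r).card := by
    have h1 : (Finset.univ : Finset A) ⊆ T'.biUnion cls := by
      intro a _
      rw [Finset.mem_biUnion]
      exact ⟨rep a, Finset.mem_image_of_mem _ (Finset.mem_univ _), (hcls _ _).2 (hrep a)⟩
    have h2 := Finset.card_le_card h1
    rw [Finset.card_univ] at h2
    exact h2.trans (Finset.card_biUnion_le_card_mul _ _ _ hmax)
  have hcq : q ≤ (cls r).card := by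
    by_contra hcon
    push Not at hcon
    have : T'.card * (cls r).card < 2 * q ^ 2 := by
      calc T'.card * (cls r).card ≤ 2 * q * (cls r).card := Nat.mul_le_mul_right _ ht.le
        _ < 2 * q * q := Nat.mul_lt_mul_of_pos_left hcon (by omega)
        _ = 2 * q ^ 2 := by ring
    omega
  refine ⟨r, cls r, fun j => hcls r j, ?_⟩
  by_contra hcon
  push Not at hcon
  have hcount : (Fintype.card A).choose (cls r).card ≤ H.index * T'.card := by
    have h1 : (Finset.univ : Finset A).powersetCard (cls r).card ⊆
        (Finset.univ : Finset ((Perm A ⧸ H) × {x // x ∈ T'})).image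
          (fun z => (cls z.2).image (Quotient.out z.1 : Perm A)) := by
      intro X hX
      rw [Finset.mem_powersetCard] at hX
      obtain ⟨e⟩ : Nonempty ({x // x ∈ cls r} ≃ {x // x ∈ X}) := by
        refine Fintype.card_eq.1 ?_
        rw [Fintype.card_coe, Fintype.card_coe, hX.2]
      let π : Perm A := e.extendSubtype
      have hπ : (cls r).image π = X := by
        refine Finset.eq_of_subset_of_card_le ?_ ?_
        · intro y hy
          rw [Finset.mem_image] at hy
          obtain ⟨x, hx, rfl⟩ := hy
          exact e.extendSubtype_mem x hx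
        · rw [Finset.card_image_of_injective _ π.injective, hX.2]
      let π0 : Perm A := Quotient.out (QuotientGroup.mk (s := H) π)
      have hh : π0⁻¹ * π ∈ H := by
        rw [← QuotientGroup.eq]
        exact Quotient.out_eq _
      have hh2 : (cls r).image (π0⁻¹ * π : Perm A) = cls (rep ((π0⁻¹ * π : Perm A) r)) := by
        ext y
        rw [Finset.mem_image, hcls]
        constructor
        · rintro ⟨x, hx, rfl⟩
          rw [hcls] at hx
          exact R_trans (hrep _) (R_map hx hh)
        · intro hy
          have h3 := R_map (R_trans (R_symm (hrep _)) hy) (H.inv_mem hh)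
          rw [pinv2] at h3
          exact ⟨_, (hcls _ _).2 h3, pinv1 _ _⟩
      rw [Finset.mem_image]
      refine ⟨(QuotientGroup.mk (s := H) π, ⟨rep ((π0⁻¹ * π : Perm A) r),
        Finset.mem_image_of_mem _ (Finset.mem_univ _)⟩), Finset.mem_univ _, ?_⟩
      change (cls (rep ((π0⁻¹ * π : Perm A) r))).image π0 = X
      rw [← hh2, ← hπ, Finset.image_image]
      refine Finset.image_congr ?_
      intro x _
      simp only [Function.comp_apply, Perm.mul_apply, pinv1]
    have h2 := Finset.card_le_card h1
    rw [Finset.card_powersetCard, Finset.card_univ] at h2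
    refine h2.trans (Finset.card_image_le.trans (le_of_eq ?_))
    rw [Finset.card_univ, Fintype.card_prod, Fintype.card_coe, Subgroup.index,
      Nat.card_eq_fintype_card]
  have h8 := two_pow_le_choose q (cls r).card (Fintype.card A - (cls r).card) hcq (by omega)
  have h9 : (cls r).card ≤ Fintype.card A := Finset.card_le_univ _
  rw [Nat.add_sub_cancel' h9] at h8
  have h10 : H.index * T'.card ≤ H.index * (2 * q) := Nat.mul_le_mul_left _ ht.le
  omega

end Pool.Agent.V8H46.Sym
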