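import Pool.Agent.V8H46.Sym.Support
import Pool.Agent.V8H46.Sym.Defs

/-!
# Canonical supports and the valuation
-/

set_option autoImplicit false

namespace Pool.Agent.V8H46.Sym

open Equiv Equiv.Perm Finset MulAction

section Om

variable {A G : Type} [Fintype A] [DecidableEq A] [MulAction (Perm A) G]

open Classical in
/-- the points outside of the canonical support of `g` -/
noncomputable def Om (q : ℕ) (g : G) : Finset A :=
  Finset.univ.filter (fun i => Fintype.card A + 1 ≤
    q + (Finset.univ.filter (fun j => R (stabilizer (Perm A) g) i j)).card)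

lemma T_smul (g : G) (π : Perm A) (a b c : A) :
    T (stabilizer (Perm A) (π • g)) (π a) (π b) (π c) ↔ T (stabilizer (Perm A) g) a b c := by
  unfold T
  rw [mem_stabilizer_iff, mem_stabilizer_iff, ← conj_cyc, mul_smul, inv_smul_smul, mul_smul]
  simp only [ne_eq, EmbeddingLike.apply_eq_iff_eq, smul_left_cancel_iff]

lemma R_smul (g : G) (π : Perm A) (a b : A) :
    R (stabilizer (Perm A) (π • g)) (π a) (π b) ↔ R (stabilizer (Perm A) g) a b := by
  unfold R
  constructor
  · rintro (h | ⟨x, h⟩)
    · exact Or.inl (π.injective h)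
    · right
      refine ⟨π⁻¹ x, ?_⟩
      rw [← T_smul g π, pinv1]
      exact h
  · rintro (h | ⟨x, h⟩)
    · left; rw [h]
    · right; exact ⟨π x, (T_smul g π a b x).2 h⟩

lemma mem_Om_smul (q : ℕ) (g : G) (π : Perm A) (a : A) : π a ∈ Om q (π • g) ↔ a ∈ Om q g := by
  classical
  unfold Om
  rw [Finset.mem_filter, Finset.mem_filter]
  have : (Finset.univ.filter (fun j => R (stabilizer (Perm A) (π • g)) (π a) j)) =
      (Finset.univ.filter (fun j => R (stabilizer (Perm A) g) a j)).image π := by
    ext y
    rw [Finset.mem_filter, Finset.mem_image]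
    constructor
    · rintro ⟨_, h⟩
      refine ⟨π⁻¹ y, ?_, pinv1 _ _⟩
      rw [Finset.mem_filter]
      refine ⟨Finset.mem_univ _, ?_⟩
      rw [← R_smul g π, pinv1]
      exact h
    · rintro ⟨x, hx, rfl⟩
      rw [Finset.mem_filter] at hx
      exact ⟨Finset.mem_univ _, (R_smul g π a x).2 hx.2⟩
  rw [this, Finset.card_image_of_injective _ π.injective]
  simp only [Finset.mem_univ, true_and]

lemma two_q_le {n q : ℕ} (hm : 2 * q ^ 2 ≤ n) : 2 * q ≤ n := by
  have : q ≤ q ^ 2 := by nlinarith
  omega

variable (q : ℕ) (hq : 1 ≤ q) (hm : 2 * q ^ 2 ≤ Fintype.card A)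
  (hG : ∀ g : G, (stabilizer (Perm A) g).index * (2 * q) < 2 ^ q)

include hq hm hG

lemma exists_big (g : G) : ∃ i, ∃ U : Finset A,
    (∀ j, j ∈ U ↔ R (stabilizer (Perm A) g) i j) ∧ Fintype.card A + 1 ≤ q + U.card := by
  exact support _ q hq hm (hG g)

lemma big_subset (g : G) (i : A) (U : Finset A)
    (hU : ∀ j, j ∈ U ↔ R (stabilizer (Perm A) g) i j) (hc : Fintype.card A + 1 ≤ q + U.card) :
    U ⊆ Om q g := by
  classical
  intro j hj
  unfold Om
  rw [Finset.mem_filter]
  refine ⟨Finset.mem_univ _, ?_⟩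
  have : Finset.univ.filter (fun k => R (stabilizer (Perm A) g) j k) = U := by
    ext k
    rw [Finset.mem_filter, hU]
    rw [hU] at hj
    constructor
    · rintro ⟨_, h⟩
      exact R_trans hj h
    · intro h
      exact ⟨Finset.mem_univ _, R_trans (R_symm hj) h⟩
  rw [this]
  exact hc

lemma card_Om (g : G) : Fintype.card A + 1 ≤ q + (Om (A := A) q g).card := by
  obtain ⟨i, U, hU, hc⟩ := exists_big q hq hm hG g
  have := Finset.card_le_card (big_subset q hq hm hG g i U hU hc)
  omega

lemma R_of_mem_Om (g : G) {i j : A} (hi : i ∈ Om q g) (hj : j ∈ Om q g) :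
    R (stabilizer (Perm A) g) i j := by
  classical
  unfold Om at hi hj
  rw [Finset.mem_filter] at hi hj
  have h2 := two_q_le hm
  obtain ⟨x, hx⟩ : (Finset.univ.filter (fun k => R (stabilizer (Perm A) g) i k) ∩
      Finset.univ.filter (fun k => R (stabilizer (Perm A) g) j k)).Nonempty := by
    rw [← Finset.card_pos]
    have h3 := Finset.card_union_add_card_inter
      (Finset.univ.filter (fun k => R (stabilizer (Perm A) g) i k))
      (Finset.univ.filter (fun k => R (stabilizer (Perm A) g) j k))
    have h4 := Finset.card_le_univ (Finset.univ.filter (fun k => R (stabilizer (Perm A) g) i k) ∪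
      Finset.univ.filter (fun k => R (stabilizer (Perm A) g) j k))
    omega
  rw [Finset.mem_inter, Finset.mem_filter, Finset.mem_filter] at hx
  exact R_trans hx.1.2 (R_symm hx.2.2)

lemma T_of_mem_Om (g : G) {i j k : A} (hi : i ∈ Om q g) (hj : j ∈ Om q g) (hk : k ∈ Om q g)
    (ij : i ≠ j) (ik : i ≠ k) (jk : j ≠ k) : cyc i j k • g = g := by
  have h := T_of_R ij ik jk (R_of_mem_Om q hq hm hG g hi hj) (R_of_mem_Om q hq hm hG g hj hk)
  exact mem_stabilizer_iff.1 h.2.2.2

lemma subset_Om (g : G) (U : Finset A) (h3 : 3 ≤ U.card) (hUq : q ≤ U.card)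
    (hU : ∀ i ∈ U, ∀ j ∈ U, ∀ k ∈ U, i ≠ j → i ≠ k → j ≠ k → cyc i j k • g = g) :
    U ⊆ Om q g := by
  classical
  have hR : ∀ i ∈ U, ∀ j ∈ U, R (stabilizer (Perm A) g) i j := by
    intro i hi j hj
    by_cases ij : i = j
    · exact Or.inl ij
    obtain ⟨k, hk, hk2⟩ : ∃ k ∈ U, k ∉ ({i, j} : Finset A) := by
      by_contra hcon
      push Not at hcon
      have h1 := Finset.card_le_card (fun k hk => hcon k hk : U ⊆ ({i, j} : Finset A))
      have h2 := Finset.card_insert_le i ({j} : Finset A)
      rw [Finset.card_singleton] at h2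
      omega
    rw [Finset.mem_insert, Finset.mem_singleton, not_or] at hk2
    exact Or.inr ⟨k, ij, Ne.symm hk2.1, Ne.symm hk2.2, mem_stabilizer_iff.2
      (hU i hi j hj k hk ij (Ne.symm hk2.1) (Ne.symm hk2.2))⟩
  obtain ⟨i, W, hW, hc⟩ := exists_big q hq hm hG g
  obtain ⟨x, hx⟩ : (U ∩ W).Nonempty := by
    rw [← Finset.card_pos]
    have h3 := Finset.card_union_add_card_inter U W
    have h4 := Finset.card_le_univ (U ∪ W)
    omega
  rw [Finset.mem_inter] at hx
  intro u hu
  refine big_subset q hq hm hG g i W hW hc ((hW u).2 ?_)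
  exact R_trans ((hW x).1 hx.2) (hR x hx.1 u hu)

/-- even permutations of subsets of `Om q g` fix `g` -/
lemma even_smul (g : G) (U : Finset A) (hU : U ⊆ Om q g) (τ : Perm {x // x ∈ U})
    (hτ : sign τ = 1) : (ofSubtype τ : Perm A) • g = g := by
  refine mem_stabilizer_iff.1 (even_mem U ?_ τ hτ)
  intro i hi j hj
  exact R_of_mem_Om q hq hm hG g (hU hi) (hU hj)

end Om

section Val

variable {p : ℕ} {A B J G : Type} [Fintype A] [DecidableEq A] [DecidableEq G]
  [MulAction (Perm A) G] [Fintype G]

/-- renaming of the pigeons of a state -/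
def act (π : Perm A) (α : A ⊕ B → Option J) : A ⊕ B → Option J :=
  fun x => α (Sum.map (⇑(π⁻¹)) id x)

/-- the pigeons of `A` without a hole are outside of the support of `g` -/
def Good (q : ℕ) (α : A ⊕ B → Option J) (g : G) : Prop :=
  ∀ a : A, α (Sum.inl a) = none → a ∈ Om q g

lemma good_act (q : ℕ) (α : A ⊕ B → Option J) (g : G) (π : Perm A) :
    Good q (act π α) (π • g) ↔ Good q α g := by
  unfold Good act
  constructor
  · intro h a ha
    have := h (π a) (by simpa using ha)
    rwa [mem_Om_smul] at this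
  · intro h a ha
    have h1 := h (π⁻¹ a) (by simpa using ha)
    rw [← mem_Om_smul q g π, pinv1] at h1
    exact h1

open Classical in
/-- the valuation, by recursion on the depth -/
noncomputable def Vn (F : Formulas p A B J G) (q : ℕ) (α : A ⊕ B → Option J) : ℕ → G → Prop
  | 0, _ => False
  | n + 1, g => Good q α g ∧ match F.gate g with
    | Gate.var x => α x.1 = some x.2
    | Gate.neg h => ¬ Vn F q α n h
    | Gate.or s => ∃ h ∈ s, Vn F q α n h
    | Gate.mod w c => (∑ h, (if Vn F q α n h then w h else 0)) = c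

lemma Vn_stable (F : Formulas p A B J G) (q : ℕ) (α : A ⊕ B → Option J) (m : ℕ) :
    ∀ n g, F.rank g < m → F.rank g < n → (Vn F q α m g ↔ Vn F q α n g) := by
  classical
  induction m with
  | zero => intro n g h; exact absurd h (Nat.not_lt_zero _)
  | succ m ih =>
    intro n g hm hn
    obtain ⟨n, rfl⟩ : ∃ n', n = n' + 1 := ⟨n - 1, by omega⟩
    unfold Vn
    refine and_congr Iff.rfl ?_
    rcases hg : F.gate g with x | h | s | ⟨w, c⟩
    · exact Iff.rfl
    · have := F.rank_neg g h hg
      exact not_congr (ih n h (by omega) (by omega))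
    · simp only
      constructor
      · rintro ⟨h, hs, hv⟩
        have := F.rank_or g s hg h hs
        exact ⟨h, hs, (ih n h (by omega) (by omega)).1 hv⟩
      · rintro ⟨h, hs, hv⟩
        have := F.rank_or g s hg h hs
        exact ⟨h, hs, (ih n h (by omega) (by omega)).2 hv⟩
    · simp only
      have : ∀ h ∈ (Finset.univ : Finset G), (if Vn F q α m h then w h else 0) =
          (if Vn F q α n h then w h else 0) := by
        intro h _
        by_cases hw : w h = 0
        · simp [hw]
        · have := F.rank_mod g w c hg h hw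
          exact if_congr (ih n h (by omega) (by omega)) rfl rfl
      rw [Finset.sum_congr rfl this]

/-- the valuation of the formulas in the state `α` -/
def V (F : Formulas p A B J G) (q : ℕ) (α : A ⊕ B → Option J) (g : G) : Prop :=
  Vn F q α (F.rank g + 1) g

lemma V_good (F : Formulas p A B J G) (q : ℕ) (α : A ⊕ B → Option J) (g : G)
    (h : V F q α g) : Good q α g := by
  unfold V Vn at h
  exact h.1

lemma V_var (F : Formulas p A B J G) (q : ℕ) (α : A ⊕ B → Option J) (g : G)
    (x : (A ⊕ B) × J) (hg : F.gate g = Gate.var x) : V F q α g ↔ Good q α g ∧ α x.1 = some x.2 := by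
  unfold V Vn
  rw [hg]

lemma V_neg (F : Formulas p A B J G) (q : ℕ) (α : A ⊕ B → Option J) (g h : G)
    (hg : F.gate g = Gate.neg h) : V F q α g ↔ Good q α g ∧ ¬ V F q α h := by
  have hr := F.rank_neg g h hg
  have h1 := Vn_stable F q α (F.rank g) (F.rank h + 1) h hr (by omega)
  unfold V
  rw [Vn, hg]
  simp only [h1]

lemma V_or (F : Formulas p A B J G) (q : ℕ) (α : A ⊕ B → Option J) (g : G) (s : Finset G)
    (hg : F.gate g = Gate.or s) : V F q α g ↔ Good q α g ∧ ∃ h ∈ s, V F q α h := by
  have h1 : ∀ h ∈ s, (Vn F q α (F.rank g) h ↔ V F q α h) := by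
    intro h hs
    exact Vn_stable F q α (F.rank g) (F.rank h + 1) h (F.rank_or g s hg h hs) (by omega)
  have h2 : V F q α g ↔ Good q α g ∧ ∃ h ∈ s, Vn F q α (F.rank g) h := by
    unfold V
    rw [Vn, hg]
  rw [h2]
  refine and_congr Iff.rfl ?_
  constructor
  · rintro ⟨h, hs, hv⟩; exact ⟨h, hs, (h1 h hs).1 hv⟩
  · rintro ⟨h, hs, hv⟩; exact ⟨h, hs, (h1 h hs).2 hv⟩

open Classical in
lemma V_mod (F : Formulas p A B J G) (q : ℕ) (α : A ⊕ B → Option J) (g : G) (w : G → ZMod p)
    (c : ZMod p) (hg : F.gate g = Gate.mod w c) :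
    V F q α g ↔ Good q α g ∧ (∑ h, (if V F q α h then w h else 0)) = c := by
  have h1 : ∀ h ∈ (Finset.univ : Finset G), (if Vn F q α (F.rank g) h then w h else 0) =
      (if V F q α h then w h else 0) := by
    intro h _
    by_cases hw : w h = 0
    · simp [hw]
    · have := Vn_stable F q α (F.rank g) (F.rank h + 1) h (F.rank_mod g w c hg h hw) (by omega)
      exact if_congr this rfl rfl
  have h2 : V F q α g ↔ Good q α g ∧
      (∑ h, (if Vn F q α (F.rank g) h then w h else 0)) = c := by
    unfold V
    rw [Vn, hg]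
  rw [h2, Finset.sum_congr rfl h1]

lemma V_respects (F : Formulas p A B J G) (q : ℕ) (α : A ⊕ B → Option J) (g : G)
    (hgood : Good q α g) : F.Respects (V F q α) g := by
  classical
  unfold Formulas.Respects
  rcases hg : F.gate g with x | h | s | ⟨w, c⟩
  · trivial
  · simp only
    rw [V_neg F q α g h hg]
    exact and_iff_right hgood
  · simp only
    rw [V_or F q α g s hg]
    exact and_iff_right hgood
  · simp only
    rw [V_mod F q α g w c hg]
    exact and_iff_right hgood

lemma Vn_act (F : Formulas p A B J G) (q : ℕ) (π : Perm A) (n : ℕ) :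
    ∀ (α : A ⊕ B → Option J) (g : G), Vn F q (act π α) n (π • g) ↔ Vn F q α n g := by
  classical
  induction n with
  | zero => intro α g; exact Iff.rfl
  | succ n ih =>
    intro α g
    unfold Vn
    refine and_congr (good_act q α g π) ?_
    rw [F.equivariant π g]
    rcases hg : F.gate g with x | h | s | ⟨w, c⟩
    · simp only [Gate.rename]
      unfold act
      rw [Sum.map_map]
      have : ((π⁻¹ : Perm A) : A → A) ∘ (π : A → A) = id := by
        funext a; exact pinv2 π a
      rw [this]
      simp
    · simp only [Gate.rename]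
      exact not_congr (ih α h)
    · simp only [Gate.rename]
      constructor
      · rintro ⟨h, hs, hv⟩
        rw [Finset.mem_image] at hs
        obtain ⟨h', hs', rfl⟩ := hs
        exact ⟨h', hs', (ih α h').1 hv⟩
      · rintro ⟨h, hs, hv⟩
        exact ⟨π • h, Finset.mem_image_of_mem _ hs, (ih α h).2 hv⟩
    · simp only [Gate.rename]
      have : (∑ h, (if Vn F q (act π α) n h then w (π⁻¹ • h) else 0)) =
          ∑ h, (if Vn F q α n h then w h else 0) := by
        rw [← Equiv.sum_comp (MulAction.toPerm π : Perm G)]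
        refine Finset.sum_congr rfl (fun h _ => ?_)
        rw [MulAction.toPerm_apply, inv_smul_smul]
        exact if_congr (ih α h) rfl rfl
      rw [this]

lemma rank_smul_V (F : Formulas p A B J G) (q : ℕ) (π : Perm A) (α : A ⊕ B → Option J) (g : G) :
    V F q (act π α) (π • g) ↔ V F q α g := by
  have h1 : V F q (act π α) (π • g) ↔
      Vn F q (act π α) (max (F.rank g) (F.rank (π • g)) + 1) (π • g) :=
    Vn_stable F q (act π α) _ _ (π • g) (Nat.lt_succ_self _) (by
      have := le_max_right (F.rank g) (F.rank (π • g)); omega)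
  have h2 : V F q α g ↔ Vn F q α (max (F.rank g) (F.rank (π • g)) + 1) g :=
    Vn_stable F q α _ _ g (Nat.lt_succ_self _) (by
      have := le_max_left (F.rank g) (F.rank (π • g)); omega)
  rw [h1, h2, Vn_act]

end Val

end Pool.Agent.V8H46.Sym
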